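import Mathlib

/-!
# MEMS free boundary model: definitions
-/

set_option autoImplicit false

open Set MeasureTheory Filter Topology

namespace Pool.Agent.J4.H82.Mems

/-- The region `Ω(u) = {(x,z) : -1 < x < 1, -1 < z < u(x)}` between the ground plate and the
deformed plate. -/
def Omega (u : ℝ → ℝ) : Set (ℝ × ℝ) := {p | -1 < p.1 ∧ p.1 < 1 ∧ -1 < p.2 ∧ p.2 < u p.1}

/-- The closed region `{(x,z) : -1 ≤ x ≤ 1, -1 ≤ z ≤ u(x)}`. -/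
def OmegaBar (u : ℝ → ℝ) : Set (ℝ × ℝ) := {p | -1 ≤ p.1 ∧ p.1 ≤ 1 ∧ -1 ≤ p.2 ∧ p.2 ≤ u p.1}

/-- `ψ ∈ C²(Ω(u)) ∩ C¹(closure Ω(u))`, with partial derivatives `ψx`, `ψz`, is the solution of
`ε² ψ_xx + ψ_zz = 0` in `Ω(u)`, `ψ = (1+z)/(1+u(x))` on the boundary. -/
structure IsPotential (ε : ℝ) (u : ℝ → ℝ) (ψ ψx ψz : ℝ × ℝ → ℝ) : Prop where
  cont_x : ContinuousOn ψx (OmegaBar u)
  cont_z : ContinuousOn ψz (OmegaBar u)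
  deriv : ∀ p ∈ OmegaBar u, HasFDerivWithinAt ψ
    (ψx p • ContinuousLinearMap.fst ℝ ℝ ℝ + ψz p • ContinuousLinearMap.snd ℝ ℝ ℝ) (OmegaBar u) p
  smooth : ContDiffOn ℝ 2 ψ (Omega u)
  laplace : ∀ p ∈ Omega u, ε ^ 2 * fderiv ℝ ψx p (1, 0) + fderiv ℝ ψz p (0, 1) = 0
  bc : ∀ p ∈ OmegaBar u, p ∉ Omega u → ψ p = (1 + p.2) / (1 + u p.1)

/-- The electrostatic force `g_ε(u)(x) = ε² ψ_x(x,u(x))² + ψ_z(x,u(x))²`. -/
def force (ε : ℝ) (u : ℝ → ℝ) (ψx ψz : ℝ × ℝ → ℝ) (x : ℝ) : ℝ :=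
  ε ^ 2 * ψx (x, u x) ^ 2 + ψz (x, u x) ^ 2

/-- Test functions: `φ ∈ C⁴` with clamped boundary conditions `φ(±1) = φ'(±1) = 0`. -/
structure IsTest (φ : ℝ → ℝ) : Prop where
  smooth : ContDiff ℝ 4 φ
  bc_left : φ (-1) = 0
  bc_right : φ 1 = 0
  bc_left' : deriv φ (-1) = 0
  bc_right' : deriv φ 1 = 0

/-- Solutions on `[0,T)` of the MEMS free boundary problem
`γ² u_tt + u_t + β u_xxxx - τ u_xx = -lam g_ε(u)`, `u(t,±1) = u_x(t,±1) = 0`,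
`u(0,x) = γ u_t(0,x) = 0`. The deflection `u(t,·)` is of class `C²` on `[-1,1]`, satisfies the
clamped boundary conditions and stays above `-1`; `ψ(t,·)` (with partial derivatives `ψx`, `ψz`) is
the potential in the region below the graph of `u(t,·)`; `v = u_t`; and the evolution equation is
understood weakly in `x`. -/
structure IsSolution (β τ γ ε lam T : ℝ) (u v : ℝ → ℝ → ℝ) (ψ ψx ψz : ℝ → ℝ × ℝ → ℝ) :
    Prop where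
  smooth : ∀ t ∈ Ico 0 T, ContDiffOn ℝ 2 (u t) (Icc (-1) 1)
  gap : ∀ t ∈ Ico 0 T, ∀ x ∈ Icc (-1 : ℝ) 1, -1 < u t x
  bc : ∀ t ∈ Ico 0 T, u t (-1) = 0 ∧ u t 1 = 0 ∧
    derivWithin (u t) (Icc (-1) 1) (-1) = 0 ∧ derivWithin (u t) (Icc (-1) 1) 1 = 0
  potential : ∀ t ∈ Ico 0 T, IsPotential ε (u t) (ψ t) (ψx t) (ψz t)
  init : ∀ x ∈ Icc (-1 : ℝ) 1, u 0 x = 0 ∧ γ * v 0 x = 0
  cont_u : ∀ φ, IsTest φ →
    ContinuousOn (fun t => ∫ x in (-1 : ℝ)..1, u t x * φ x) (Ico 0 T)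
  cont_v : ∀ φ, IsTest φ →
    ContinuousOn (fun t => γ ^ 2 * ∫ x in (-1 : ℝ)..1, v t x * φ x) (Ico 0 T)
  velocity : ∀ φ, IsTest φ → ∀ t ∈ Ioo 0 T,
    HasDerivAt (fun s => ∫ x in (-1 : ℝ)..1, u s x * φ x) (∫ x in (-1 : ℝ)..1, v t x * φ x) t
  equation : ∀ φ, IsTest φ → ∀ t ∈ Ioo 0 T,
    HasDerivAt (fun s => γ ^ 2 * ∫ x in (-1 : ℝ)..1, v s x * φ x)
      (-(∫ x in (-1 : ℝ)..1, v t x * φ x)
        - (∫ x in (-1 : ℝ)..1, u t x * (β * iteratedDeriv 4 φ x - τ * iteratedDeriv 2 φ x))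
        - lam * ∫ x in (-1 : ℝ)..1, force ε (u t) (ψx t) (ψz t) x * φ x) t

end Pool.Agent.J4.H82.Mems
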