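import Pool.Agent.J4.H82.Mems.Pot

set_option autoImplicit false

open Set MeasureTheory Filter Topology

namespace Pool.Agent.J4.H82.Mems

/-- The flattening map. -/
def Phi (u : ℝ → ℝ) (p : ℝ × ℝ) : ℝ × ℝ := (p.1, -1 + p.2 * (1 + u p.1))

lemma Phi_mem {u : ℝ → ℝ} (hgap : ∀ x ∈ Icc (-1 : ℝ) 1, -1 < u x) {p : ℝ × ℝ}
    (h1 : p.1 ∈ Icc (-1 : ℝ) 1) (h2 : p.2 ∈ Icc (0 : ℝ) 1) : Phi u p ∈ OmegaBar u := by
  have := hgap _ h1
  refine ⟨h1.1, h1.2, ?_, ?_⟩
  · simp only [Phi]; nlinarith [h2.1]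
  · simp only [Phi]; nlinarith [h2.2]

lemma Phi_mem' {u : ℝ → ℝ} (hgap : ∀ x ∈ Icc (-1 : ℝ) 1, -1 < u x) {p : ℝ × ℝ}
    (h1 : p.1 ∈ Ioo (-1 : ℝ) 1) (h2 : p.2 ∈ Ioo (0 : ℝ) 1) : Phi u p ∈ Omega u := by
  have := hgap _ ⟨h1.1.le, h1.2.le⟩
  refine ⟨h1.1, h1.2, ?_, ?_⟩
  · simp only [Phi]; nlinarith [h2.1]
  · simp only [Phi]; nlinarith [h2.2]

/-- Divergence theorem under the graph of `u`. -/
lemma graph_div {u u' ζ ζ' : ℝ → ℝ} {P Q R : ℝ × ℝ → ℝ} {a b : ℝ}
    (hab : a ≤ b) (ha : -1 < a) (hb : b < 1)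
    (huc : ContinuousOn u (Icc (-1) 1))
    (hgap : ∀ x ∈ Icc (-1 : ℝ) 1, -1 < u x)
    (hu : ∀ x ∈ Ioo (-1 : ℝ) 1, HasDerivAt u (u' x) x)
    (hu' : ∀ x ∈ Ioo (-1 : ℝ) 1, DifferentiableAt ℝ u' x)
    (hζ : ∀ x, HasDerivAt ζ (ζ' x) x) (hζ' : Continuous ζ')
    (hPc : ContinuousOn P (OmegaBar u)) (hQc : ContinuousOn Q (OmegaBar u))
    (hRc : ContinuousOn R (OmegaBar u))
    (hP : ∀ p ∈ Omega u, DifferentiableAt ℝ P p) (hQ : ∀ p ∈ Omega u, DifferentiableAt ℝ Q p)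
    (hR : ∀ p ∈ Omega u, fderiv ℝ P p (1, 0) + fderiv ℝ Q p (0, 1) = R p) :
    (∫ x in a..b, ∫ s in (0 : ℝ)..1,
      (ζ x * R (Phi u (x, s)) + ζ' x * P (Phi u (x, s))) * (1 + u x)) =
      ((∫ x in a..b, ζ x * (Q (x, u x) - u' x * P (x, u x))) - ∫ x in a..b, ζ x * Q (x, -1)) +
      (∫ s in (0 : ℝ)..1, ζ b * P (Phi u (b, s)) * (1 + u b)) -
      ∫ s in (0 : ℝ)..1, ζ a * P (Phi u (a, s)) * (1 + u a) := by
  classical
  have hζc : Continuous ζ := continuous_iff_continuousAt.2 fun x => (hζ x).continuousAt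
  have hIcc : Icc a b ⊆ Ioo (-1 : ℝ) 1 := fun x hx => ⟨ha.trans_le hx.1, hx.2.trans_lt hb⟩
  have hIcc' : Icc a b ⊆ Icc (-1 : ℝ) 1 := fun x hx => ⟨(hIcc hx).1.le, (hIcc hx).2.le⟩
  set S : Set (ℝ × ℝ) := Icc a b ×ˢ Icc (0 : ℝ) 1 with hS
  have hSK : IsCompact S := isCompact_Icc.prod isCompact_Icc
  -- continuity facts on S
  have cu : ContinuousOn (fun p : ℝ × ℝ => u p.1) S :=
    huc.comp continuousOn_fst (fun p hp => hIcc' hp.1)
  have cu' : ContinuousOn (fun p : ℝ × ℝ => u' p.1) S := by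
    have : ContinuousOn u' (Icc a b) := fun x hx => (hu' x (hIcc hx)).continuousAt.continuousWithinAt
    exact this.comp continuousOn_fst (fun p hp => hp.1)
  have cΦ : ContinuousOn (Phi u) S := by
    unfold Phi
    apply continuousOn_fst.prodMk
    exact continuousOn_const.add (continuousOn_snd.mul (continuousOn_const.add cu))
  have mΦ : MapsTo (Phi u) S (OmegaBar u) := fun p hp => Phi_mem hgap (hIcc' hp.1) hp.2
  have cP : ContinuousOn (fun p => P (Phi u p)) S := hPc.comp cΦ mΦ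
  have cQ : ContinuousOn (fun p => Q (Phi u p)) S := hQc.comp cΦ mΦ
  have cR : ContinuousOn (fun p => R (Phi u p)) S := hRc.comp cΦ mΦ
  have cζ : ContinuousOn (fun p : ℝ × ℝ => ζ p.1) S := (hζc.comp continuous_fst).continuousOn
  have cζ' : ContinuousOn (fun p : ℝ × ℝ => ζ' p.1) S := (hζ'.comp continuous_fst).continuousOn
  set f : ℝ × ℝ → ℝ := fun p => ζ p.1 * P (Phi u p) * (1 + u p.1) with hf
  set g : ℝ × ℝ → ℝ := fun p => ζ p.1 * (Q (Phi u p) - p.2 * u' p.1 * P (Phi u p)) with hg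
  set F : ℝ × ℝ → ℝ := fun p => (ζ p.1 * R (Phi u p) + ζ' p.1 * P (Phi u p)) * (1 + u p.1) with hF
  have cf : ContinuousOn f S := (cζ.mul cP).mul (continuousOn_const.add cu)
  have cg : ContinuousOn g S := cζ.mul (cQ.sub ((continuousOn_snd.mul cu').mul cP))
  have cF : ContinuousOn F S := ((cζ.mul cR).add (cζ'.mul cP)).mul (continuousOn_const.add cu)
  set I : Set (ℝ × ℝ) := Ioo a b ×ˢ Ioo (0 : ℝ) 1 with hI
  -- differentiability on the interior
  have mI1 : ∀ p ∈ I, p.1 ∈ Ioo (-1 : ℝ) 1 := fun p hp => hIcc ⟨hp.1.1.le, hp.1.2.le⟩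
  have mI : ∀ p ∈ I, Phi u p ∈ Omega u := fun p hp => Phi_mem' hgap (mI1 p hp) hp.2
  have du : ∀ p ∈ I, DifferentiableAt ℝ (fun q : ℝ × ℝ => u q.1) p := fun p hp =>
    DifferentiableAt.comp p (f := fun q : ℝ × ℝ => q.1) (hu _ (mI1 p hp)).differentiableAt
      differentiableAt_fst
  have du' : ∀ p ∈ I, DifferentiableAt ℝ (fun q : ℝ × ℝ => u' q.1) p := fun p hp =>
    DifferentiableAt.comp p (f := fun q : ℝ × ℝ => q.1) (hu' _ (mI1 p hp)) differentiableAt_fst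
  have dζ : ∀ p : ℝ × ℝ, DifferentiableAt ℝ (fun q : ℝ × ℝ => ζ q.1) p := fun p =>
    DifferentiableAt.comp p (f := fun q : ℝ × ℝ => q.1) (hζ _).differentiableAt differentiableAt_fst
  have dΦ : ∀ p ∈ I, DifferentiableAt ℝ (Phi u) p := fun p hp => by
    unfold Phi
    apply differentiableAt_fst.prodMk
    exact (differentiableAt_const _).add
      (differentiableAt_snd.mul ((differentiableAt_const _).add (du p hp)))
  have dP : ∀ p ∈ I, DifferentiableAt ℝ (fun q => P (Phi u q)) p := fun p hp =>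
    DifferentiableAt.comp p (hP _ (mI p hp)) (dΦ p hp)
  have dQ : ∀ p ∈ I, DifferentiableAt ℝ (fun q => Q (Phi u q)) p := fun p hp =>
    DifferentiableAt.comp p (hQ _ (mI p hp)) (dΦ p hp)
  have df : ∀ p ∈ I, DifferentiableAt ℝ f p := fun p hp =>
    ((dζ p).mul (dP p hp)).mul ((differentiableAt_const _).add (du p hp))
  have dg : ∀ p ∈ I, DifferentiableAt ℝ g p := fun p hp =>
    (dζ p).mul ((dQ p hp).sub ((differentiableAt_snd.mul (du' p hp)).mul (dP p hp)))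
  -- the divergence
  have hdiv : ∀ p ∈ I, fderiv ℝ f p (1, 0) + fderiv ℝ g p (0, 1) = F p := by
    intro p hp
    have e1 : ∀ (T : ℝ × ℝ → ℝ), DifferentiableAt ℝ T (Phi u p) →
        HasDerivAt (fun x => T (Phi u (x, p.2)))
          (fderiv ℝ T (Phi u p) (1, 0) + p.2 * u' p.1 * fderiv ℝ T (Phi u p) (0, 1)) p.1 := by
      intro T hT
      have h1 : HasDerivAt (fun x => Phi u (x, p.2)) (1, p.2 * u' p.1) p.1 := by
        unfold Phi
        have h2 : HasDerivAt (fun x => -1 + p.2 * (1 + u x)) (p.2 * u' p.1) p.1 := by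
          have := (((hu _ (mI1 p hp)).const_add 1).const_mul p.2).const_add (-1)
          exact this
        exact (hasDerivAt_id p.1).prodMk h2
      have h3 := HasFDerivAt.comp_hasDerivAt p.1 (f := fun x => Phi u (x, p.2)) hT.hasFDerivAt h1
      refine h3.congr_deriv ?_
      have : ((1 : ℝ), p.2 * u' p.1) = (1, 0) + (p.2 * u' p.1) • ((0 : ℝ), (1 : ℝ)) := by
        ext <;> simp
      rw [this, map_add, map_smul, smul_eq_mul]
    have e2 : ∀ (T : ℝ × ℝ → ℝ), DifferentiableAt ℝ T (Phi u p) →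
        HasDerivAt (fun s => T (Phi u (p.1, s)))
          ((1 + u p.1) * fderiv ℝ T (Phi u p) (0, 1)) p.2 := by
      intro T hT
      have h1 : HasDerivAt (fun s => Phi u (p.1, s)) (0, 1 + u p.1) p.2 := by
        unfold Phi
        have h2 : HasDerivAt (fun s : ℝ => -1 + s * (1 + u p.1)) (1 + u p.1) p.2 := by
          simpa using ((hasDerivAt_id p.2).mul_const (1 + u p.1)).const_add (-1)
        exact (hasDerivAt_const p.2 p.1).prodMk h2
      have h3 := HasFDerivAt.comp_hasDerivAt p.2 (f := fun s => Phi u (p.1, s)) hT.hasFDerivAt h1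
      refine h3.congr_deriv ?_
      have : ((0 : ℝ), 1 + u p.1) = (1 + u p.1) • ((0 : ℝ), (1 : ℝ)) := by
        ext <;> simp
      rw [this, map_smul, smul_eq_mul]
    have hf1 := line1 (df p hp).hasFDerivAt
    have hf2 : HasDerivAt (fun x => f (x, p.2)) ((ζ' p.1 * P (Phi u p) + ζ p.1 *
        (fderiv ℝ P (Phi u p) (1, 0) + p.2 * u' p.1 * fderiv ℝ P (Phi u p) (0, 1))) * (1 + u p.1) +
        ζ p.1 * P (Phi u p) * u' p.1) p.1 :=
      ((hζ p.1).mul (e1 P (hP _ (mI p hp)))).mul ((hu _ (mI1 p hp)).const_add 1)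
    have hg1 := line2 (dg p hp).hasFDerivAt
    have hg2 : HasDerivAt (fun s => g (p.1, s)) (ζ p.1 * ((1 + u p.1) * fderiv ℝ Q (Phi u p) (0, 1) -
        (u' p.1 * P (Phi u p) + p.2 * u' p.1 * ((1 + u p.1) * fderiv ℝ P (Phi u p) (0, 1))))) p.2 := by
      have h1 : HasDerivAt (fun s : ℝ => s * u' p.1) (u' p.1) p.2 := by
        simpa using (hasDerivAt_id p.2).mul_const (u' p.1)
      exact ((e2 Q (hQ _ (mI p hp))).sub (h1.mul (e2 P (hP _ (mI p hp))))).const_mul (ζ p.1)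
    rw [hf1.unique hf2, hg1.unique hg2, hF]
    simp only
    rw [← hR _ (mI p hp)]
    ring
  set f' : ℝ × ℝ → ℝ × ℝ →L[ℝ] ℝ := fun p => if p ∈ I then fderiv ℝ f p else
    F p • ContinuousLinearMap.fst ℝ ℝ ℝ with hf'
  set g' : ℝ × ℝ → ℝ × ℝ →L[ℝ] ℝ := fun p => if p ∈ I then fderiv ℝ g p else 0 with hg'
  have hsum : ∀ p, f' p (1, 0) + g' p (0, 1) = F p := by
    intro p
    by_cases hp : p ∈ I
    · simp only [hf', hg', hp, if_true]; exact hdiv p hp
    · simp [hf', hg', hp]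
  have huI : Ioo (min a b) (max a b) ×ˢ Ioo (min (0 : ℝ) 1) (max (0 : ℝ) 1) = I := by
    rw [min_eq_left hab, max_eq_right hab, min_eq_left zero_le_one, max_eq_right zero_le_one]
  have huS : (uIcc a b ×ˢ uIcc (0 : ℝ) 1 : Set (ℝ × ℝ)) = S := by
    rw [uIcc_of_le hab, uIcc_of_le zero_le_one]
  have main := integral2_divergence_prod_of_hasFDerivAt f g f' g' a 0 b 1
    (by rw [huS]; exact cf) (by rw [huS]; exact cg)
    (by
      rw [huI]; intro p hp
      simp only [hf', hp, if_true]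
      exact (df p hp).hasFDerivAt)
    (by
      rw [huI]; intro p hp
      simp only [hg', hp, if_true]
      exact (dg p hp).hasFDerivAt)
    (by
      rw [huS]
      simp only [hsum]
      exact cF.integrableOn_compact hSK)
  simp only [hsum] at main
  rw [main]
  congr 1
  congr 1
  congr 1
  · refine intervalIntegral.integral_congr fun x _ => ?_
    have : Phi u (x, 1) = (x, u x) := by simp [Phi]
    simp only [hg, this, one_mul]
  · refine intervalIntegral.integral_congr fun x _ => ?_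
    have : Phi u (x, 0) = (x, -1) := by simp [Phi]
    simp only [hg, this, zero_mul, sub_zero]

end Pool.Agent.J4.H82.Mems
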