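import Pool.Agent.J4.H82.Mems.Lower

set_option autoImplicit false

open Set MeasureTheory Filter Topology

namespace Pool.Agent.J4.H82.Mems

/-- Comparison lemma for `γ² w' + w ≤ 0`. -/
lemma decay {γ t1 : ℝ} (ht : 0 < t1) {w w' : ℝ → ℝ} (hc : ContinuousOn w (Icc 0 t1))
    (hd : ∀ t ∈ Ioo 0 t1, HasDerivAt w (w' t) t)
    (hle : ∀ t ∈ Ioo 0 t1, γ ^ 2 * w' t + w t ≤ 0) (h0 : w 0 ≤ 0) :
    ∀ t ∈ Icc 0 t1, w t ≤ 0 := by
  rcases eq_or_ne γ 0 with hγ | hγ
  · subst hγ
    have h1 : ∀ t ∈ Ioo 0 t1, w t ≤ 0 := fun t ht => by have := hle t ht; simpa using this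
    have h2 : closure (Ioo 0 t1) = Icc 0 t1 := closure_Ioo ht.ne
    intro t ht'
    have h3 : ContinuousWithinAt w (Ioo 0 t1) t :=
      (hc t ht').mono Ioo_subset_Icc_self
    have h4 : t ∈ closure (Ioo 0 t1) := by rw [h2]; exact ht'
    have : NeBot (𝓝[Ioo 0 t1] t) := mem_closure_iff_nhdsWithin_neBot.1 h4
    exact le_of_tendsto h3 (eventually_nhdsWithin_of_forall h1)
  · have hγ2 : 0 < γ ^ 2 := by positivity
    have hexp : ∀ t : ℝ, HasDerivAt (fun t => Real.exp (t / γ ^ 2))
        (Real.exp (t / γ ^ 2) / γ ^ 2) t := fun t => by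
      have := ((hasDerivAt_id t).div_const (γ ^ 2)).exp
      refine this.congr_deriv ?_
      simp only [id]
      ring
    have hanti : AntitoneOn (fun t => Real.exp (t / γ ^ 2) * w t) (Icc 0 t1) := by
      apply antitoneOn_of_deriv_nonpos (convex_Icc 0 t1)
      · exact (Continuous.continuousOn (by fun_prop)).mul hc
      · intro t ht'
        rw [interior_Icc] at ht'
        exact ((hexp t).mul (hd t ht')).differentiableAt.differentiableWithinAt
      · intro t ht'
        rw [interior_Icc] at ht'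
        have h1 : HasDerivAt (fun t => Real.exp (t / γ ^ 2) * w t) _ t := (hexp t).mul (hd t ht')
        rw [h1.deriv]
        have h2 := hle t ht'
        have h3 : Real.exp (t / γ ^ 2) / γ ^ 2 * w t + Real.exp (t / γ ^ 2) * w' t =
            Real.exp (t / γ ^ 2) / γ ^ 2 * (γ ^ 2 * w' t + w t) := by
          field_simp
          ring
        rw [h3]
        exact mul_nonpos_of_nonneg_of_nonpos (by positivity) h2
    intro t ht'
    have h1 := hanti (left_mem_Icc.2 ht.le) ht' ht'.1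
    simp only [zero_div, Real.exp_zero, one_mul] at h1
    have h2 : Real.exp (t / γ ^ 2) * w t ≤ 0 := h1.trans h0
    by_contra h3
    push Not at h3
    have : 0 < Real.exp (t / γ ^ 2) * w t := by positivity
    linarith

/-- Linear decay. -/
lemma decay_lin {γ A t1 : ℝ} (hA : 0 ≤ A) (ht : 0 < t1) {m n m' e' : ℝ → ℝ}
    (hmc : ContinuousOn m (Icc 0 t1)) (hnc : ContinuousOn n (Icc 0 t1))
    (hm : ∀ t ∈ Ioo 0 t1, HasDerivAt m (m' t) t)
    (hn : ∀ t ∈ Ioo 0 t1, n t = γ ^ 2 * m' t)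
    (hE : ∀ t ∈ Ioo 0 t1, HasDerivAt (fun t => n t + m t) (e' t) t)
    (hle : ∀ t ∈ Ioo 0 t1, e' t ≤ -A) (h0 : m 0 = 0) (hn0 : n 0 = 0) :
    ∀ t ∈ Icc 0 t1, m t ≤ -A * (t - γ ^ 2) := by
  have hEA : ∀ t ∈ Icc 0 t1, n t + m t ≤ -A * t := by
    have hanti : AntitoneOn (fun t => (n t + m t) + A * t) (Icc 0 t1) := by
      have hd : ∀ t ∈ Ioo 0 t1, HasDerivAt (fun t => (n t + m t) + A * t) (e' t + A * 1) t :=
        fun t ht' => (hE t ht').add ((hasDerivAt_id t).const_mul A)
      apply antitoneOn_of_deriv_nonpos (convex_Icc 0 t1)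
      · exact (hnc.add hmc).add (Continuous.continuousOn (by fun_prop))
      · intro t ht'
        rw [interior_Icc] at ht'
        exact (hd t ht').differentiableAt.differentiableWithinAt
      · intro t ht'
        rw [interior_Icc] at ht'
        rw [(hd t ht').deriv]
        have := hle t ht'
        linarith
    intro t ht'
    have h1 := hanti (left_mem_Icc.2 ht.le) ht' ht'.1
    simp only [h0, hn0] at h1
    linarith
  have hw : ∀ t ∈ Icc 0 t1, m t + A * t - A * γ ^ 2 ≤ 0 := by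
    apply decay (γ := γ) (w' := fun t => m' t + A * 1) ht
    · exact (hmc.add (Continuous.continuousOn (by fun_prop))).sub continuousOn_const
    · intro t ht'
      exact ((hm t ht').add ((hasDerivAt_id t).const_mul A)).sub_const _
    · intro t ht'
      have h1 := hEA t ⟨ht'.1.le, ht'.2.le⟩
      rw [hn t ht'] at h1
      nlinarith
    · simp only [h0]
      nlinarith [sq_nonneg γ]
  intro t ht'
  have := hw t ht'
  linarith

theorem main {β τ γ ε : ℝ} (hβ : 0 < β) (hτ : 0 ≤ τ) (hε : 0 < ε) :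
    ∃ lamStar C : ℝ, 0 ≤ lamStar ∧ 0 < C ∧ ∀ lam, lamStar < lam → ∀ (T : ℝ)
      (u v : ℝ → ℝ → ℝ) (ψ ψx ψz : ℝ → ℝ × ℝ → ℝ),
      IsSolution β τ γ ε lam T u v ψ ψx ψz → T ≤ γ ^ 2 + C / (lam - lamStar) := by
  -- choice of the weight
  obtain ⟨j, hj⟩ : ∃ j : ℕ, τ ≤ β * ((2 * j + 2) * (2 * j + 1)) := by
    obtain ⟨j, hj⟩ := exists_nat_ge (τ / β)
    refine ⟨j, ?_⟩
    rw [div_le_iff₀ hβ] at hj
    have : (0 : ℝ) ≤ j := Nat.cast_nonneg j
    have h2 : (j : ℝ) ≤ (2 * j + 2) * (2 * j + 1) := by nlinarith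
    nlinarith
  set ζ : ℝ → ℝ := wgt j with hζ
  have cζ : Continuous ζ := wgt_cont j
  set W : ℝ → ℝ := fun x => β * wgt4 j x - τ * wgt2 j x with hW
  have cW : Continuous W := by
    simp only [hW, wgt4, wgt2]; fun_prop
  have hWnn : ∀ x ∈ Icc (-1 : ℝ) 1, 0 ≤ W x := fun x hx => W_nonneg hτ hj hx
  have hζnn : ∀ x ∈ Icc (-1 : ℝ) 1, 0 ≤ ζ x := fun x hx => wgt_nonneg j hx
  set Z : ℝ := ∫ x in (-1 : ℝ)..1, ζ x with hZ
  set CW : ℝ := ∫ x in (-1 : ℝ)..1, W x with hCW
  have hCWnn : 0 ≤ CW := intervalIntegral.integral_nonneg (by norm_num) hWnn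
  have hZpos : 0 < Z := by
    apply intervalIntegral.integral_pos (by norm_num) cζ.continuousOn
    · intro x hx; exact hζnn x ⟨hx.1.le, hx.2⟩
    · refine ⟨0, by norm_num, ?_⟩
      have := wgt_ge j (x := 0) (by norm_num)
      have h2 : (0 : ℝ) < (1 - 0 ^ 2) ^ 2 := by norm_num
      exact lt_of_lt_of_le h2 this
  obtain ⟨c, hc, hlow⟩ := force_lower (Y := 2 * Z) hε (by linarith)
  refine ⟨CW / c, Z / c, by positivity, by positivity, ?_⟩
  intro lam hlam T u v ψ ψx ψz hsol
  have hA : 0 < lam * c - CW := by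
    rw [div_lt_iff₀ hc] at hlam; linarith
  set A : ℝ := lam * c - CW with hAdef
  have hlampos : 0 < lam := lt_of_le_of_lt (by positivity) hlam
  have htest : IsTest ζ := ⟨wgt_contDiff j, wgt_neg_one j, wgt_one j, by
    rw [hζ, wgt_deriv]; exact wgt1_neg_one j, by rw [hζ, wgt_deriv]; exact wgt1_one j⟩
  set m : ℝ → ℝ := fun t => ∫ x in (-1 : ℝ)..1, u t x * ζ x with hm
  set n : ℝ → ℝ := fun t => γ ^ 2 * ∫ x in (-1 : ℝ)..1, v t x * ζ x with hn
  set m' : ℝ → ℝ := fun t => ∫ x in (-1 : ℝ)..1, v t x * ζ x with hm'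
  set e' : ℝ → ℝ := fun t => -(∫ x in (-1 : ℝ)..1, u t x * W x) -
    lam * ∫ x in (-1 : ℝ)..1, force ε (u t) (ψx t) (ψz t) x * ζ x with he'
  have hmc : ContinuousOn m (Ico 0 T) := hsol.cont_u ζ htest
  have hnc : ContinuousOn n (Ico 0 T) := hsol.cont_v ζ htest
  have hmd : ∀ t ∈ Ioo 0 T, HasDerivAt m (m' t) t := hsol.velocity ζ htest
  have hEd : ∀ t ∈ Ioo 0 T, HasDerivAt (fun t => n t + m t) (e' t) t := by
    intro t ht
    have h1 := hsol.equation ζ htest t ht
    have h2 := hmd t ht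
    refine (h1.add h2).congr_deriv ?_
    rw [hζ, wgt_iter2, wgt_iter4]
    simp only [hm', he', hW]
    ring
  -- integrability and pointwise bounds
  have hu_int : ∀ t ∈ Ico 0 T, ContinuousOn (u t) (uIcc (-1) 1) := fun t ht => by
    rw [uIcc_of_le (by norm_num)]; exact (hsol.smooth t ht).continuousOn
  have hm_add : ∀ t ∈ Ico 0 T, (∫ x in (-1 : ℝ)..1, ζ x * (1 + u t x)) = Z + m t := by
    intro t ht
    rw [hZ, hm]
    simp only
    have i2 : IntervalIntegrable (fun x => u t x * ζ x) volume (-1) 1 :=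
      ((hu_int t ht).mul cζ.continuousOn).intervalIntegrable
    rw [← intervalIntegral.integral_add (cζ.intervalIntegrable _ _) i2]
    refine intervalIntegral.integral_congr fun x _ => ?_
    ring
  have hm_lower : ∀ t ∈ Ico 0 T, -Z ≤ m t := by
    intro t ht
    have h1 := hm_add t ht
    have h2 : 0 ≤ ∫ x in (-1 : ℝ)..1, ζ x * (1 + u t x) := by
      apply intervalIntegral.integral_nonneg (by norm_num)
      intro x hx
      exact mul_nonneg (hζnn x hx) (by linarith [hsol.gap t ht x hx])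
    linarith
  have he_le : ∀ t ∈ Ico 0 T, m t ≤ Z → e' t ≤ -A := by
    intro t ht hmt
    have hgap := hsol.gap t ht
    have huc := (hsol.smooth t ht).continuousOn
    have hpot := hsol.potential t ht
    have hbc := hsol.bc t ht
    have i1 : IntervalIntegrable (fun x => u t x * W x) volume (-1) 1 :=
      ((hu_int t ht).mul cW.continuousOn).intervalIntegrable
    have h1 : -(∫ x in (-1 : ℝ)..1, u t x * W x) ≤ CW := by
      rw [hCW, ← intervalIntegral.integral_neg]
      apply intervalIntegral.integral_mono_on (by norm_num) i1.neg (cW.intervalIntegrable _ _)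
      intro x hx
      have h3 := hWnn x hx
      have h4 := hgap x hx
      have h5 : 0 ≤ (1 + u t x) * W x := mul_nonneg (by linarith) h3
      simp only [Pi.neg_apply]
      linarith
    have hsub : Icc (-(1 / 2) : ℝ) (1 / 2) ⊆ Icc (-1 : ℝ) 1 := fun x hx =>
      ⟨by linarith [hx.1], by linarith [hx.2]⟩
    -- the constraint on the gap
    have h2 : (∫ x in (-(1 / 2) : ℝ)..(1 / 2), zeta1 x * (1 + u t x)) ≤ 2 * Z := by
      have cg : ContinuousOn (fun x => ζ x * (1 + u t x)) (Icc (-1) 1) :=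
        cζ.continuousOn.mul (continuousOn_const.add huc)
      have h3 : (∫ x in (-(1 / 2) : ℝ)..(1 / 2), zeta1 x * (1 + u t x)) ≤
          ∫ x in (-(1 / 2) : ℝ)..(1 / 2), ζ x * (1 + u t x) := by
        apply intervalIntegral.integral_mono_on (by norm_num)
        · apply ContinuousOn.intervalIntegrable_of_Icc (by norm_num)
          exact zeta1_cont.continuousOn.mul (continuousOn_const.add (huc.mono hsub))
        · apply ContinuousOn.intervalIntegrable_of_Icc (by norm_num)
          exact cg.mono hsub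
        · intro x hx
          exact mul_le_mul_of_nonneg_right (zeta1_le_wgt j hx)
            (by linarith [hgap x (hsub hx)])
      have h4 : (∫ x in (-(1 / 2) : ℝ)..(1 / 2), ζ x * (1 + u t x)) ≤
          ∫ x in (-1 : ℝ)..1, ζ x * (1 + u t x) := by
        apply intervalIntegral.integral_mono_interval (by norm_num) (by norm_num) (by norm_num)
        · rw [EventuallyLE, ae_restrict_iff' measurableSet_Ioc]
          refine Eventually.of_forall fun x hx => ?_
          have hx' : x ∈ Icc (-1 : ℝ) 1 := ⟨hx.1.le, hx.2⟩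
          exact mul_nonneg (hζnn x hx') (by linarith [hgap x hx'])
        · exact cg.intervalIntegrable_of_Icc (by norm_num)
      have h5 := hm_add t ht
      linarith
    have h6 := hlow (u t) (ψ t) (ψx t) (ψz t) hpot (hsol.smooth t ht) hgap hbc.1 hbc.2.1 h2
    have cf := force_continuousOn hpot huc hgap
    have h7 : (∫ x in (-(1 / 2) : ℝ)..(1 / 2), zeta1 x * force ε (u t) (ψx t) (ψz t) x) ≤
        ∫ x in (-1 : ℝ)..1, force ε (u t) (ψx t) (ψz t) x * ζ x := by
      have h3 : (∫ x in (-(1 / 2) : ℝ)..(1 / 2), zeta1 x * force ε (u t) (ψx t) (ψz t) x) ≤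
          ∫ x in (-(1 / 2) : ℝ)..(1 / 2), force ε (u t) (ψx t) (ψz t) x * ζ x := by
        apply intervalIntegral.integral_mono_on (by norm_num)
        · apply ContinuousOn.intervalIntegrable_of_Icc (by norm_num)
          exact zeta1_cont.continuousOn.mul (cf.mono hsub)
        · apply ContinuousOn.intervalIntegrable_of_Icc (by norm_num)
          exact (cf.mono hsub).mul cζ.continuousOn
        · intro x hx
          rw [mul_comm]
          exact mul_le_mul_of_nonneg_left (zeta1_le_wgt j hx) (force_nonneg x)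
      refine h3.trans ?_
      apply intervalIntegral.integral_mono_interval (by norm_num) (by norm_num) (by norm_num)
      · rw [EventuallyLE, ae_restrict_iff' measurableSet_Ioc]
        refine Eventually.of_forall fun x hx => ?_
        exact mul_nonneg (force_nonneg x) (hζnn x ⟨hx.1.le, hx.2⟩)
      · exact (cf.mul cζ.continuousOn).intervalIntegrable_of_Icc (by norm_num)
    have h8 : lam * c ≤ lam * ∫ x in (-1 : ℝ)..1, force ε (u t) (ψx t) (ψz t) x * ζ x :=
      mul_le_mul_of_nonneg_left (h6.trans h7) hlampos.le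
    simp only [he']
    linarith
  -- initial values
  rcases le_or_gt T 0 with hT | hT
  · have : 0 ≤ Z / c / (lam - CW / c) := by
      have : 0 < lam - CW / c := by linarith
      positivity
    nlinarith [sq_nonneg γ]
  have hm0 : m 0 = 0 := by
    simp only [hm]
    have : ∫ x in (-1 : ℝ)..1, u 0 x * ζ x = ∫ x in (-1 : ℝ)..1, (0 : ℝ) := by
      refine intervalIntegral.integral_congr fun x hx => ?_
      rw [uIcc_of_le (by norm_num)] at hx
      simp only [(hsol.init x hx).1, zero_mul]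
    rw [this]; simp
  have hn0 : n 0 = 0 := by
    simp only [hn]
    have : γ ^ 2 * ∫ x in (-1 : ℝ)..1, v 0 x * ζ x =
        γ * ∫ x in (-1 : ℝ)..1, (γ * v 0 x) * ζ x := by
      rw [← intervalIntegral.integral_const_mul, ← intervalIntegral.integral_const_mul]
      refine intervalIntegral.integral_congr fun x hx => ?_
      ring
    rw [this]
    have : ∫ x in (-1 : ℝ)..1, (γ * v 0 x) * ζ x = ∫ x in (-1 : ℝ)..1, (0 : ℝ) := by
      refine intervalIntegral.integral_congr fun x hx => ?_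
      rw [uIcc_of_le (by norm_num)] at hx
      simp only [(hsol.init x hx).2, zero_mul]
    rw [this]; simp
  -- decay as long as m ≤ Z
  have hdec : ∀ t1, 0 < t1 → t1 < T → (∀ t ∈ Ioo 0 t1, m t ≤ Z) →
      ∀ t ∈ Icc 0 t1, m t ≤ -A * (t - γ ^ 2) := by
    intro t1 h1 h2 h3
    have hI : Icc 0 t1 ⊆ Ico 0 T := fun t ht => ⟨ht.1, ht.2.trans_lt h2⟩
    have hI' : Ioo 0 t1 ⊆ Ioo 0 T := fun t ht => ⟨ht.1, ht.2.trans h2⟩
    exact decay_lin hA.le h1 (hmc.mono hI) (hnc.mono hI) (fun t ht => hmd t (hI' ht))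
      (fun t ht => rfl) (fun t ht => hEd t (hI' ht))
      (fun t ht => he_le t ⟨ht.1.le, ht.2.trans h2⟩ (h3 t ht)) hm0 hn0
  have hneg : ∀ t1, 0 < t1 → t1 < T → (∀ t ∈ Ioo 0 t1, m t ≤ Z) → ∀ t ∈ Icc 0 t1, m t ≤ 0 := by
    intro t1 h1 h2 h3
    have hI : Icc 0 t1 ⊆ Ico 0 T := fun t ht => ⟨ht.1, ht.2.trans_lt h2⟩
    have hI' : Ioo 0 t1 ⊆ Ioo 0 T := fun t ht => ⟨ht.1, ht.2.trans h2⟩
    have hanti : AntitoneOn (fun t => n t + m t) (Icc 0 t1) := by
      apply antitoneOn_of_deriv_nonpos (convex_Icc 0 t1)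
      · exact (hnc.mono hI).add (hmc.mono hI)
      · intro t ht'
        rw [interior_Icc] at ht'
        exact (hEd t (hI' ht')).differentiableAt.differentiableWithinAt
      · intro t ht'
        rw [interior_Icc] at ht'
        rw [(hEd t (hI' ht')).deriv]
        have := he_le t ⟨ht'.1.le, ht'.2.trans h2⟩ (h3 t ht')
        linarith
    apply decay (γ := γ) (w' := m') h1 (hmc.mono hI) (fun t ht => hmd t (hI' ht))
    · intro t ht'
      have h4 := hanti (left_mem_Icc.2 h1.le) ⟨ht'.1.le, ht'.2.le⟩ ht'.1.le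
      simp only [hm0, hn0] at h4
      have h5 : γ ^ 2 * m' t = n t := rfl
      rw [h5]; linarith
    · exact hm0.le
  -- bootstrap
  have hmZ : ∀ t ∈ Ico 0 T, m t ≤ Z := by
    by_contra hcon
    push Not at hcon
    obtain ⟨t2, ht2, h2⟩ := hcon
    have hcl : IsClosed (Icc 0 t2 ∩ m ⁻¹' Ici Z) :=
      (hmc.mono fun t ht => ⟨ht.1, ht.2.trans_lt ht2.2⟩).preimage_isClosed_of_isClosed
        isClosed_Icc isClosed_Ici
    have hne : (Icc 0 t2 ∩ m ⁻¹' Ici Z).Nonempty := ⟨t2, ⟨ht2.1, le_rfl⟩, h2.le⟩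
    have hbd : BddBelow (Icc 0 t2 ∩ m ⁻¹' Ici Z) := ⟨0, fun t ht => ht.1.1⟩
    have hmem := hcl.csInf_mem hne hbd
    set t1 := sInf (Icc 0 t2 ∩ m ⁻¹' Ici Z) with ht1
    have h3 : Z ≤ m t1 := hmem.2
    have h4 : 0 < t1 := by
      rcases hmem.1.1.lt_or_eq with h | h
      · exact h
      · rw [← h, hm0] at h3; linarith
    have h5 : t1 < T := hmem.1.2.trans_lt ht2.2
    have h6 : ∀ t ∈ Ioo 0 t1, m t ≤ Z := by
      intro t ht
      by_contra h7
      push Not at h7
      have : t1 ≤ t := csInf_le hbd ⟨⟨ht.1.le, ht.2.le.trans hmem.1.2⟩, h7.le⟩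
      exact absurd ht.2 (not_lt.2 this)
    have h8 := hneg t1 h4 h5 h6 t1 ⟨h4.le, le_rfl⟩
    linarith
  -- conclusion
  have hfin : ∀ t, 0 < t → t < T → t ≤ γ ^ 2 + Z / A := by
    intro t h1 h2
    have h3 := hdec t h1 h2 (fun s hs => hmZ s ⟨hs.1.le, hs.2.trans h2⟩) t ⟨h1.le, le_rfl⟩
    have h4 := hm_lower t ⟨h1.le, h2⟩
    have h5 : A * (t - γ ^ 2) ≤ Z := by linarith
    have h6 : t - γ ^ 2 ≤ Z / A := by
      rw [le_div_iff₀ hA]; linarith
    linarith
  have hfin' : T ≤ γ ^ 2 + Z / A := by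
    by_contra hcon
    push Not at hcon
    have h0 : 0 ≤ γ ^ 2 + Z / A := by positivity
    have h1 := hfin ((γ ^ 2 + Z / A + T) / 2) (by linarith) (by linarith)
    linarith
  have hAc : Z / A = Z / c / (lam - CW / c) := by
    rw [hAdef]
    have h1 : lam - CW / c = (lam * c - CW) / c := by field_simp
    rw [h1, div_div_div_cancel_right₀ hc.ne']
  rw [← hAc]
  exact hfin'

end Pool.Agent.J4.H82.Mems
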