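import Pool.Agent.J4.H82.Mems.Div

set_option autoImplicit false

open Set MeasureTheory Filter Topology

namespace Pool.Agent.J4.H82.Mems

/-- the local weight -/
noncomputable def zeta1 (x : ℝ) : ℝ := 9 / 16 * (1 - 4 * x ^ 2) ^ 2

lemma zeta1_hasDerivAt (x : ℝ) : HasDerivAt zeta1 (-9 * x * (1 - 4 * x ^ 2)) x := by
  have h1 : HasDerivAt (fun x : ℝ => 1 - 4 * x ^ 2) (-(8 * x)) x := by
    have := ((hasDerivAt_pow 2 x).const_mul 4).const_sub 1
    refine this.congr_deriv ?_
    norm_num; ring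
  have h2 := (h1.pow 2).const_mul (9 / 16)
  unfold zeta1
  refine h2.congr_deriv ?_
  norm_num; ring

lemma zeta1_nonneg (x : ℝ) : 0 ≤ zeta1 x := by unfold zeta1; positivity

lemma zeta1_cont : Continuous zeta1 := by unfold zeta1; fun_prop

lemma integral_zeta1 : ∫ x in (-(1 / 2) : ℝ)..(1 / 2), zeta1 x = 3 / 10 := by
  have h : ∀ x : ℝ, HasDerivAt (fun x : ℝ => 9 / 16 * (x - 8 / 3 * x ^ 3 + 16 / 5 * x ^ 5))
      (zeta1 x) x := by
    intro x
    have h1 := (((hasDerivAt_id x).sub ((hasDerivAt_pow 3 x).const_mul (8 / 3))).add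
      ((hasDerivAt_pow 5 x).const_mul (16 / 5))).const_mul (9 / 16)
    unfold zeta1
    refine h1.congr_deriv ?_
    norm_num; ring
  rw [intervalIntegral.integral_eq_sub_of_hasDerivAt (fun x _ => h x)
    (zeta1_cont.intervalIntegrable _ _)]
  norm_num

lemma integral_sq' : ∫ x in (-(1 / 2) : ℝ)..(1 / 2), 72 * x ^ 2 = 6 := by
  rw [intervalIntegral.integral_const_mul, integral_pow]
  norm_num

section

variable {ε δ m : ℝ} {u : ℝ → ℝ} {ψ ψx ψz : ℝ × ℝ → ℝ}

/-- The pointwise inequality. -/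
lemma pointwise {b t x : ℝ} (hb : 0 ≤ b) (hm : 0 ≤ m) :
    b * (6 * m ^ 2 * zeta1 x - 72 * ε ^ 2 * x ^ 2) - 4 * m ^ 3 * zeta1 x ≤
      2 * zeta1 x * b ^ 3 + 2 * ε ^ 2 * b * (zeta1 x * t ^ 2 - 9 * x * (1 - 4 * x ^ 2) * t) := by
  have h1 : 0 ≤ (b - m) ^ 2 * (b + 2 * m) := by positivity
  have h2 : zeta1 x * t ^ 2 - 9 * x * (1 - 4 * x ^ 2) * t + 36 * x ^ 2 =
      9 / 16 * ((1 - 4 * x ^ 2) * t - 8 * x) ^ 2 := by unfold zeta1; ring
  have h3 : 0 ≤ zeta1 x * t ^ 2 - 9 * x * (1 - 4 * x ^ 2) * t + 36 * x ^ 2 := by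
    rw [h2]; positivity
  have h4 := zeta1_nonneg x
  have h5 : 0 ≤ 2 * zeta1 x * ((b - m) ^ 2 * (b + 2 * m)) := by positivity
  have h6 : 0 ≤ 2 * ε ^ 2 * b * (zeta1 x * t ^ 2 - 9 * x * (1 - 4 * x ^ 2) * t + 36 * x ^ 2) :=
    mul_nonneg (by positivity) h3
  nlinarith

theorem force_identity (h : IsPotential ε u ψ ψx ψz) (hε : ε ≠ 0) (hδ : 0 < δ) (hm : 0 ≤ m)
    (hu2 : ContDiffOn ℝ 2 u (Icc (-1) 1))
    (hgap : ∀ x ∈ Icc (-1 : ℝ) 1, -1 < u x) (hm1 : u (-1) = 0) (h1 : u 1 = 0) :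
    (Real.log (1 + δ) - Real.log δ) * (9 / 5 * m ^ 2 - 6 * ε ^ 2) -
      4 * m ^ 3 * (∫ x in (-(1 / 2) : ℝ)..(1 / 2), zeta1 x * (1 + u x)) ≤
      (δ⁻¹) ^ 2 * ∫ x in (-(1 / 2) : ℝ)..(1 / 2), zeta1 x * force ε u ψx ψz x := by
  have huc : ContinuousOn u (Icc (-1) 1) := hu2.continuousOn
  set r : ℝ × ℝ → ℝ := fun p => 1 + δ - ψ p with hr
  set P : ℝ × ℝ → ℝ := fun p => 2 * ε ^ 2 * (r p)⁻¹ ^ 2 * ψx p * ψz p with hP
  set Q : ℝ × ℝ → ℝ := fun p => (r p)⁻¹ ^ 2 * (ψz p ^ 2 - ε ^ 2 * ψx p ^ 2) with hQ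
  set R : ℝ × ℝ → ℝ := fun p => 2 * (r p)⁻¹ ^ 3 * ψz p * (ψz p ^ 2 + ε ^ 2 * ψx p ^ 2) with hR
  have hrpos : ∀ p ∈ OmegaBar u, 0 < r p := fun p hp => by
    have := h.le_one hε huc hgap p hp
    simp only [hr]; linarith
  have hrne : ∀ p ∈ OmegaBar u, r p ≠ 0 := fun p hp => (hrpos p hp).ne'
  have cr : ContinuousOn r (OmegaBar u) := continuousOn_const.sub h.cont
  have cri : ContinuousOn (fun p => (r p)⁻¹) (OmegaBar u) := cr.inv₀ hrne
  have cP : ContinuousOn P (OmegaBar u) :=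
    ((continuousOn_const.mul (cri.pow 2)).mul h.cont_x).mul h.cont_z
  have cQ : ContinuousOn Q (OmegaBar u) :=
    (cri.pow 2).mul ((h.cont_z.pow 2).sub (continuousOn_const.mul (h.cont_x.pow 2)))
  have cR : ContinuousOn R (OmegaBar u) :=
    ((continuousOn_const.mul (cri.pow 3)).mul h.cont_z).mul
      ((h.cont_z.pow 2).add (continuousOn_const.mul (h.cont_x.pow 2)))
  have dr : ∀ p ∈ Omega u, DifferentiableAt ℝ r p := fun p hp =>
    (differentiableAt_const _).sub (h.hasFDerivAt huc hp).differentiableAt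
  have dri : ∀ p ∈ Omega u, DifferentiableAt ℝ (fun p => (r p)⁻¹) p := fun p hp =>
    (dr p hp).inv (hrne p (Omega_subset hp))
  have dx : ∀ p ∈ Omega u, DifferentiableAt ℝ ψx p := fun p hp =>
    (h.hasFDerivAt_x huc hp).differentiableAt
  have dz : ∀ p ∈ Omega u, DifferentiableAt ℝ ψz p := fun p hp =>
    (h.hasFDerivAt_z huc hp).differentiableAt
  have dP : ∀ p ∈ Omega u, DifferentiableAt ℝ P p := fun p hp =>
    (((differentiableAt_const _).mul ((dri p hp).pow 2)).mul (dx p hp)).mul (dz p hp)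
  have dQ : ∀ p ∈ Omega u, DifferentiableAt ℝ Q p := fun p hp =>
    ((dri p hp).pow 2).mul (((dz p hp).pow 2).sub ((differentiableAt_const _).mul ((dx p hp).pow 2)))
  -- derivative of u
  have hIoo : ∀ x ∈ Ioo (-1 : ℝ) 1, Icc (-1 : ℝ) 1 ∈ 𝓝 x := fun x hx => Icc_mem_nhds hx.1 hx.2
  have hcd : ∀ x ∈ Ioo (-1 : ℝ) 1, ContDiffAt ℝ 2 u x := fun x hx =>
    (hu2 x ⟨hx.1.le, hx.2.le⟩).contDiffAt (hIoo x hx)
  have hdu : ∀ x ∈ Ioo (-1 : ℝ) 1, HasDerivAt u (deriv u x) x := fun x hx =>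
    ((hcd x hx).differentiableAt (by norm_num)).hasDerivAt
  have hdu' : ∀ x ∈ Ioo (-1 : ℝ) 1, DifferentiableAt ℝ (deriv u) x := fun x hx => by
    have h2 : ContDiffAt ℝ 1 (fderiv ℝ u) x := (hcd x hx).fderiv_right (m := 1) (by norm_num)
    have h3 : DifferentiableAt ℝ (fun y => fderiv ℝ u y 1) x :=
      (h2.differentiableAt (by norm_num)).clm_apply (differentiableAt_const _)
    exact h3
  -- divergence identity
  have hdivR : ∀ p ∈ Omega u, fderiv ℝ P p (1, 0) + fderiv ℝ Q p (0, 1) = R p := by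
    intro p hp
    have a1 : HasDerivAt (fun x => ψ (x, p.2)) (ψx p) p.1 := by
      simpa using line1 (h.hasFDerivAt huc hp)
    have a2 : HasDerivAt (fun z => ψ (p.1, z)) (ψz p) p.2 := by
      simpa using line2 (h.hasFDerivAt huc hp)
    have b1 := line1 (h.hasFDerivAt_x huc hp)
    have b2 := line2 (h.hasFDerivAt_x huc hp)
    have c1 := line1 (h.hasFDerivAt_z huc hp)
    have c2 := line2 (h.hasFDerivAt_z huc hp)
    have r1 : HasDerivAt (fun x => (r (x, p.2))⁻¹) (ψx p / (r p) ^ 2) p.1 := by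
      have := (a1.const_sub (1 + δ)).fun_inv (hrne p (Omega_subset hp))
      refine this.congr_deriv ?_
      rw [neg_neg]
    have r2 : HasDerivAt (fun z => (r (p.1, z))⁻¹) (ψz p / (r p) ^ 2) p.2 := by
      have := (a2.const_sub (1 + δ)).fun_inv (hrne p (Omega_subset hp))
      refine this.congr_deriv ?_
      rw [neg_neg]
    have hP1 := line1 (dP p hp).hasFDerivAt
    have hP2 := (((r1.pow 2).const_mul (2 * ε ^ 2)).mul b1).mul c1
    have hQ1 := line2 (dQ p hp).hasFDerivAt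
    have hQ2 := (r2.pow 2).mul ((c2.pow 2).sub ((b2.pow 2).const_mul (ε ^ 2)))
    have eP := hP1.unique hP2
    have eQ := hQ1.unique hQ2
    rw [eP, eQ]
    have hl := h.laplace p hp
    have hs := h.symm huc hp
    have hz2 : fderiv ℝ ψz p (0, 1) = -(ε ^ 2 * fderiv ℝ ψx p (1, 0)) := by linarith
    simp only [Pi.pow_apply, Pi.mul_apply, Pi.sub_apply, hR]
    rw [hz2, hs]
    have hne := hrne p (Omega_subset hp)
    simp only [Prod.mk.eta, Nat.reduceSub, pow_one]
    field_simp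
    ring
  have key := graph_div (a := -(1 / 2)) (b := 1 / 2) (by norm_num) (by norm_num) (by norm_num)
    huc hgap hdu hdu' zeta1_hasDerivAt (by fun_prop) cP cQ cR dP dQ hdivR
  have hz_b : zeta1 (1 / 2) = 0 := by unfold zeta1; norm_num
  have hz_a : zeta1 (-(1 / 2)) = 0 := by unfold zeta1; norm_num
  simp only [hz_a, hz_b, zero_mul, intervalIntegral.integral_zero, add_zero, sub_zero] at key
  -- boundary terms
  have hI2 : ∀ x ∈ Icc (-(1 / 2) : ℝ) (1 / 2), x ∈ Ioo (-1 : ℝ) 1 := fun x hx =>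
    ⟨by linarith [hx.1], by linarith [hx.2]⟩
  have htop : ∀ x ∈ Ioo (-1 : ℝ) 1, ψx (x, u x) + deriv u x * ψz (x, u x) = 0 := by
    intro x hx
    have hmem : ∀ y ∈ Ioo (-1 : ℝ) 1, (y, u y) ∈ OmegaBar u := fun y hy =>
      ⟨hy.1.le, hy.2.le, (hgap y ⟨hy.1.le, hy.2.le⟩).le, le_rfl⟩
    have e1 := h.deriv (x, u x) (hmem x hx)
    have e2 : HasDerivWithinAt (fun y => (y, u y)) (1, deriv u x) (Ioo (-1) 1) x :=
      ((hasDerivAt_id x).prodMk (hdu x hx)).hasDerivWithinAt
    have e3 := HasFDerivWithinAt.comp_hasDerivWithinAt x (f := fun y => (y, u y)) e1 e2 hmem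
    have e4 : HasDerivAt (ψ ∘ fun y => (y, u y)) _ x := e3.hasDerivAt (isOpen_Ioo.mem_nhds hx)
    have e5 : (ψ ∘ fun y => (y, u y)) =ᶠ[𝓝 x] fun _ => (1 : ℝ) := by
      filter_upwards [isOpen_Ioo.mem_nhds hx] with y hy
      exact h.top hgap ⟨hy.1.le, hy.2.le⟩
    have e6 := (e4.congr_of_eventuallyEq e5.symm).unique (hasDerivAt_const x (1 : ℝ))
    simp only [add_apply, smul_apply,
      ContinuousLinearMap.coe_fst', ContinuousLinearMap.coe_snd', smul_eq_mul] at e6
    linarith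
  have hbot : ∀ x ∈ Ioo (-1 : ℝ) 1, ψx (x, -1) = 0 := by
    intro x hx
    have hmem : ∀ y ∈ Ioo (-1 : ℝ) 1, (y, (-1 : ℝ)) ∈ OmegaBar u := fun y hy =>
      ⟨hy.1.le, hy.2.le, le_rfl, (hgap y ⟨hy.1.le, hy.2.le⟩).le⟩
    have e1 := h.deriv (x, -1) (hmem x hx)
    have e2 : HasDerivWithinAt (fun y : ℝ => (y, (-1 : ℝ))) (1, 0) (Ioo (-1) 1) x :=
      ((hasDerivAt_id x).prodMk (hasDerivAt_const x (-1 : ℝ))).hasDerivWithinAt
    have e3 := HasFDerivWithinAt.comp_hasDerivWithinAt x (f := fun y : ℝ => (y, (-1 : ℝ))) e1 e2 hmem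
    have e4 : HasDerivAt (ψ ∘ fun y : ℝ => (y, (-1 : ℝ))) _ x :=
      e3.hasDerivAt (isOpen_Ioo.mem_nhds hx)
    have e5 : (ψ ∘ fun y : ℝ => (y, (-1 : ℝ))) =ᶠ[𝓝 x] fun _ => (0 : ℝ) := by
      filter_upwards [isOpen_Ioo.mem_nhds hx] with y hy
      exact h.bot hgap ⟨hy.1.le, hy.2.le⟩
    have e6 := (e4.congr_of_eventuallyEq e5.symm).unique (hasDerivAt_const x (0 : ℝ))
    simpa using e6
  have ktop : (∫ x in (-(1 / 2) : ℝ)..(1 / 2), zeta1 x * (Q (x, u x) - deriv u x * P (x, u x))) =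
      (δ⁻¹) ^ 2 * ∫ x in (-(1 / 2) : ℝ)..(1 / 2), zeta1 x * force ε u ψx ψz x := by
    rw [← intervalIntegral.integral_const_mul]
    refine intervalIntegral.integral_congr fun x hx => ?_
    rw [uIcc_of_le (by norm_num)] at hx
    have hx' := hI2 x hx
    have e1 : r (x, u x) = δ := by
      simp only [hr]; rw [h.top hgap ⟨hx'.1.le, hx'.2.le⟩]; ring
    have e2 : ψx (x, u x) = -(deriv u x * ψz (x, u x)) := by linarith [htop x hx']
    simp only [hQ, hP, force, e1]
    rw [e2]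
    ring
  have kbot : 0 ≤ ∫ x in (-(1 / 2) : ℝ)..(1 / 2), zeta1 x * Q (x, -1) := by
    apply intervalIntegral.integral_nonneg (by norm_num)
    intro x hx
    have e2 := hbot x (hI2 x hx)
    simp only [hQ, e2]
    have := zeta1_nonneg x
    have : 0 ≤ (r (x, -1))⁻¹ ^ 2 := by positivity
    apply mul_nonneg (zeta1_nonneg x)
    apply mul_nonneg this
    have : 0 ≤ ψz (x, -1) ^ 2 := by positivity
    nlinarith
  rw [ktop] at key
  -- lower bound for the bulk integral
  have bulk : (Real.log (1 + δ) - Real.log δ) * (9 / 5 * m ^ 2 - 6 * ε ^ 2) -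
      4 * m ^ 3 * (∫ x in (-(1 / 2) : ℝ)..(1 / 2), zeta1 x * (1 + u x)) ≤
      ∫ x in (-(1 / 2) : ℝ)..(1 / 2), ∫ s in (0 : ℝ)..1,
        (zeta1 x * R (Phi u (x, s)) + -9 * x * (1 - 4 * x ^ 2) * P (Phi u (x, s))) * (1 + u x) := by
    have hinner : ∀ x ∈ Icc (-(1 / 2) : ℝ) (1 / 2),
        (Real.log (1 + δ) - Real.log δ) * (6 * m ^ 2 * zeta1 x - 72 * ε ^ 2 * x ^ 2) -
          4 * m ^ 3 * (zeta1 x * (1 + u x)) ≤
        ∫ s in (0 : ℝ)..1,
        (zeta1 x * R (Phi u (x, s)) + -9 * x * (1 - 4 * x ^ 2) * P (Phi u (x, s))) * (1 + u x) := by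
      intro x hx
      have hx1 := hI2 x hx
      have hx2 : x ∈ Icc (-1 : ℝ) 1 := ⟨hx1.1.le, hx1.2.le⟩
      have hH : 0 < 1 + u x := by linarith [hgap x hx2]
      have hmem : ∀ s ∈ Icc (0 : ℝ) 1, Phi u (x, s) ∈ OmegaBar u := fun s hs =>
        Phi_mem hgap (p := (x, s)) hx2 hs
      have hmem' : ∀ s ∈ Ioo (0 : ℝ) 1, Phi u (x, s) ∈ Omega u := fun s hs =>
        Phi_mem' hgap (p := (x, s)) hx1 hs
      have cΦ : Continuous fun s : ℝ => Phi u (x, s) := by
        have : Continuous fun s : ℝ => (x, -1 + s * (1 + u x)) := by fun_prop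
        exact this
      have cψ : ContinuousOn (fun s => ψ (Phi u (x, s))) (Icc 0 1) :=
        h.cont.comp cΦ.continuousOn hmem
      have cB : ContinuousOn (fun s => ψz (Phi u (x, s))) (Icc 0 1) :=
        h.cont_z.comp cΦ.continuousOn hmem
      have cri' : ContinuousOn (fun s => (r (Phi u (x, s)))⁻¹) (Icc 0 1) :=
        cri.comp cΦ.continuousOn hmem
      have cb : ContinuousOn (fun s => (1 + u x) * (ψz (Phi u (x, s)) * (r (Phi u (x, s)))⁻¹))
          (Icc 0 1) := continuousOn_const.mul (cB.mul cri')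
      have hlog : ∫ s in (0 : ℝ)..1, (1 + u x) * (ψz (Phi u (x, s)) * (r (Phi u (x, s)))⁻¹) =
          Real.log (1 + δ) - Real.log δ := by
        have hF : ∀ s ∈ Ioo (0 : ℝ) 1, HasDerivAt (fun s => -Real.log (r (Phi u (x, s))))
            ((1 + u x) * (ψz (Phi u (x, s)) * (r (Phi u (x, s)))⁻¹)) s := by
          intro s hs
          have e0 := line2 (h.hasFDerivAt huc (hmem' s hs))
          have e0' : HasDerivAt (fun z => ψ (x, z)) (ψz (Phi u (x, s))) (-1 + s * (1 + u x)) := by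
            simpa [Phi] using e0
          have e1 : HasDerivAt (fun s : ℝ => -1 + s * (1 + u x)) (1 + u x) s := by
            simpa using ((hasDerivAt_id s).mul_const (1 + u x)).const_add (-1)
          have e2 : HasDerivAt (fun s => ψ (Phi u (x, s))) (ψz (Phi u (x, s)) * (1 + u x)) s :=
            HasDerivAt.comp (h₂ := fun z => ψ (x, z)) s e0' e1
          have e3 : HasDerivAt (fun s => r (Phi u (x, s))) (-(ψz (Phi u (x, s)) * (1 + u x))) s :=
            e2.const_sub (1 + δ)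
          have e4 := (e3.log (hrne _ (hmem s ⟨hs.1.le, hs.2.le⟩))).neg
          refine e4.congr_deriv ?_
          have := hrne _ (hmem s ⟨hs.1.le, hs.2.le⟩)
          field_simp
        have hFc : ContinuousOn (fun s => -Real.log (r (Phi u (x, s)))) (Icc 0 1) := by
          apply ContinuousOn.neg
          apply ContinuousOn.log
          · exact cr.comp cΦ.continuousOn hmem
          · intro s hs; exact hrne _ (hmem s hs)
        rw [intervalIntegral.integral_eq_sub_of_hasDerivAt_of_le zero_le_one hFc hF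
          (cb.intervalIntegrable_of_Icc zero_le_one)]
        have e1 : r (Phi u (x, 1)) = δ := by
          have : Phi u (x, 1) = (x, u x) := by simp [Phi]
          rw [this]; simp only [hr]; rw [h.top hgap hx2]; ring
        have e0 : r (Phi u (x, 0)) = 1 + δ := by
          have : Phi u (x, 0) = (x, -1) := by simp [Phi]
          rw [this]; simp only [hr]; rw [h.bot hgap hx2]; ring
        rw [e1, e0]; ring
      have hlower : (Real.log (1 + δ) - Real.log δ) * (6 * m ^ 2 * zeta1 x - 72 * ε ^ 2 * x ^ 2) -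
          4 * m ^ 3 * (zeta1 x * (1 + u x)) =
          ∫ s in (0 : ℝ)..1, ((1 + u x) * (ψz (Phi u (x, s)) * (r (Phi u (x, s)))⁻¹) *
            (6 * m ^ 2 * zeta1 x - 72 * ε ^ 2 * x ^ 2) - 4 * m ^ 3 * (zeta1 x * (1 + u x))) := by
        rw [intervalIntegral.integral_sub, intervalIntegral.integral_mul_const, hlog]
        · simp
        · exact (cb.mul continuousOn_const).intervalIntegrable_of_Icc zero_le_one
        · exact intervalIntegrable_const
      rw [hlower]
      apply intervalIntegral.integral_mono_on_of_le_Ioo zero_le_one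
      · apply ContinuousOn.intervalIntegrable_of_Icc zero_le_one
        exact (cb.mul continuousOn_const).sub continuousOn_const
      · apply ContinuousOn.intervalIntegrable_of_Icc zero_le_one
        apply ContinuousOn.mul _ continuousOn_const
        exact (continuousOn_const.mul (cR.comp cΦ.continuousOn hmem)).add
          (continuousOn_const.mul (cP.comp cΦ.continuousOn hmem))
      · intro s hs
        have hp := hmem' s hs
        have hb : 0 ≤ ψz (Phi u (x, s)) * (r (Phi u (x, s)))⁻¹ :=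
          mul_nonneg (h.z_nonneg hε huc hgap hm1 h1 hp)
            (inv_nonneg.2 (hrpos _ (Omega_subset hp)).le)
        have hpw := pointwise (ε := ε) (m := m) (b := ψz (Phi u (x, s)) * (r (Phi u (x, s)))⁻¹)
          (t := ψx (Phi u (x, s)) * (r (Phi u (x, s)))⁻¹) (x := x) hb hm
        have := mul_le_mul_of_nonneg_left hpw hH.le
        simp only [hR, hP]
        nlinarith [this]
    have hint : ∫ x in (-(1 / 2) : ℝ)..(1 / 2),
        ((Real.log (1 + δ) - Real.log δ) * (6 * m ^ 2 * zeta1 x - 72 * ε ^ 2 * x ^ 2) -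
          4 * m ^ 3 * (zeta1 x * (1 + u x))) =
        (Real.log (1 + δ) - Real.log δ) * (9 / 5 * m ^ 2 - 6 * ε ^ 2) -
      4 * m ^ 3 * (∫ x in (-(1 / 2) : ℝ)..(1 / 2), zeta1 x * (1 + u x)) := by
      have cu12 : ContinuousOn u (uIcc (-(1 / 2)) (1 / 2)) := by
        rw [uIcc_of_le (by norm_num)]
        exact huc.mono fun x hx => ⟨by linarith [hx.1], by linarith [hx.2]⟩
      rw [intervalIntegral.integral_sub, intervalIntegral.integral_const_mul,
        intervalIntegral.integral_const_mul, intervalIntegral.integral_sub,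
        intervalIntegral.integral_const_mul, integral_zeta1]
      · have : ∫ x in (-(1 / 2) : ℝ)..(1 / 2), 72 * ε ^ 2 * x ^ 2 = 6 * ε ^ 2 := by
          have e : ∀ x : ℝ, 72 * ε ^ 2 * x ^ 2 = ε ^ 2 * (72 * x ^ 2) := fun x => by ring
          simp only [e]
          rw [intervalIntegral.integral_const_mul, integral_sq']; ring
        rw [this]; ring
      · exact (zeta1_cont.const_mul _).intervalIntegrable _ _ 
      · apply Continuous.intervalIntegrable; fun_prop
      · apply Continuous.intervalIntegrable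
        have := zeta1_cont
        fun_prop
      · apply ContinuousOn.intervalIntegrable
        exact continuousOn_const.mul (zeta1_cont.continuousOn.mul (continuousOn_const.add cu12))
    rw [← hint]
    apply intervalIntegral.integral_mono_on (by norm_num)
    · have cu12 : ContinuousOn u (uIcc (-(1 / 2)) (1 / 2)) := by
        rw [uIcc_of_le (by norm_num)]
        exact huc.mono fun x hx => ⟨by linarith [hx.1], by linarith [hx.2]⟩
      apply ContinuousOn.intervalIntegrable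
      have := zeta1_cont.continuousOn (s := uIcc (-(1 / 2)) (1 / 2))
      fun_prop
    · -- integrability of the inner integral
      have cF : ContinuousOn (fun p : ℝ × ℝ =>
          (zeta1 p.1 * R (Phi u p) + -9 * p.1 * (1 - 4 * p.1 ^ 2) * P (Phi u p)) * (1 + u p.1))
          (Icc (-(1 / 2) : ℝ) (1 / 2) ×ˢ Icc (0 : ℝ) 1) := by
        have cu : ContinuousOn (fun p : ℝ × ℝ => u p.1)
            (Icc (-(1 / 2) : ℝ) (1 / 2) ×ˢ Icc (0 : ℝ) 1) :=
          huc.comp continuousOn_fst (fun p hp => ⟨by linarith [hp.1.1], by linarith [hp.1.2]⟩)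
        have cΦ : ContinuousOn (Phi u) (Icc (-(1 / 2) : ℝ) (1 / 2) ×ˢ Icc (0 : ℝ) 1) := by
          unfold Phi
          apply continuousOn_fst.prodMk
          exact continuousOn_const.add (continuousOn_snd.mul (continuousOn_const.add cu))
        have mΦ : MapsTo (Phi u) (Icc (-(1 / 2) : ℝ) (1 / 2) ×ˢ Icc (0 : ℝ) 1) (OmegaBar u) :=
          fun p hp => Phi_mem hgap ⟨by linarith [hp.1.1], by linarith [hp.1.2]⟩ hp.2
        have c1 : ContinuousOn (fun p : ℝ × ℝ => zeta1 p.1)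
            (Icc (-(1 / 2) : ℝ) (1 / 2) ×ˢ Icc (0 : ℝ) 1) :=
          (zeta1_cont.comp continuous_fst).continuousOn
        have c2 : ContinuousOn (fun p : ℝ × ℝ => -9 * p.1 * (1 - 4 * p.1 ^ 2))
            (Icc (-(1 / 2) : ℝ) (1 / 2) ×ˢ Icc (0 : ℝ) 1) := by fun_prop
        exact ((c1.mul (cR.comp cΦ mΦ)).add (c2.mul (cP.comp cΦ mΦ))).mul (continuousOn_const.add cu)
      have hI := cF.integrableOn_compact (μ := volume) (isCompact_Icc.prod isCompact_Icc)
      rw [IntegrableOn, Measure.volume_eq_prod, ← Measure.prod_restrict] at hI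
      have hJ := hI.integral_prod_left
      rw [intervalIntegrable_iff_integrableOn_Icc_of_le (by norm_num)]
      refine hJ.congr (Eventually.of_forall fun x => ?_)
      simp only
      rw [intervalIntegral.integral_of_le zero_le_one, integral_Icc_eq_integral_Ioc]
    · exact hinner
  linarith [key, bulk, kbot]

end

end Pool.Agent.J4.H82.Mems
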