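import Pool.Agent.J4.H82.Mems.Force

set_option autoImplicit false

open Set MeasureTheory Filter Topology

namespace Pool.Agent.J4.H82.Mems

/-- Uniform lower bound for the localised force. -/
theorem force_lower {ε Y : ℝ} (hε : 0 < ε) (hY : 0 ≤ Y) :
    ∃ c : ℝ, 0 < c ∧ ∀ (u : ℝ → ℝ) (ψ ψx ψz : ℝ × ℝ → ℝ), IsPotential ε u ψ ψx ψz →
      ContDiffOn ℝ 2 u (Icc (-1) 1) → (∀ x ∈ Icc (-1 : ℝ) 1, -1 < u x) → u (-1) = 0 → u 1 = 0 →
      (∫ x in (-(1 / 2) : ℝ)..(1 / 2), zeta1 x * (1 + u x)) ≤ Y →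
      c ≤ ∫ x in (-(1 / 2) : ℝ)..(1 / 2), zeta1 x * force ε u ψx ψz x := by
  set m : ℝ := 1 + 2 * ε with hm
  have hmpos : 0 < m := by positivity
  set L : ℝ := 4 * m ^ 3 * Y + 1 with hL
  have hLpos : 0 < L := by positivity
  have he : 0 < Real.exp L - 1 := by
    have := Real.add_one_lt_exp hLpos.ne'
    linarith
  set δ : ℝ := (Real.exp L - 1)⁻¹ with hδ
  have hδpos : 0 < δ := inv_pos.2 he
  refine ⟨δ ^ 2, by positivity, ?_⟩
  intro u ψ ψx ψz h hu2 hgap hm1 h1 hle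
  have key := force_identity h hε.ne' hδpos hmpos.le hu2 hgap hm1 h1
  have hlog : Real.log (1 + δ) - Real.log δ = L := by
    rw [← Real.log_div (by positivity) hδpos.ne']
    have : (1 + δ) / δ = Real.exp L := by
      rw [hδ]; field_simp; ring
    rw [this, Real.log_exp]
  rw [hlog] at key
  have h2 : 1 ≤ 9 / 5 * m ^ 2 - 6 * ε ^ 2 := by
    rw [hm]; nlinarith [sq_nonneg ε]
  have h3 : L ≤ L * (9 / 5 * m ^ 2 - 6 * ε ^ 2) := by nlinarith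
  have h4 : 4 * m ^ 3 * (∫ x in (-(1 / 2) : ℝ)..(1 / 2), zeta1 x * (1 + u x)) ≤ 4 * m ^ 3 * Y :=
    mul_le_mul_of_nonneg_left hle (by positivity)
  have h5 : 1 ≤ (δ⁻¹) ^ 2 * ∫ x in (-(1 / 2) : ℝ)..(1 / 2), zeta1 x * force ε u ψx ψz x := by
    linarith
  have h6 : δ ^ 2 * 1 ≤ δ ^ 2 * ((δ⁻¹) ^ 2 *
      ∫ x in (-(1 / 2) : ℝ)..(1 / 2), zeta1 x * force ε u ψx ψz x) :=
    mul_le_mul_of_nonneg_left h5 (by positivity)
  have h7 : δ ^ 2 * ((δ⁻¹) ^ 2 *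
      ∫ x in (-(1 / 2) : ℝ)..(1 / 2), zeta1 x * force ε u ψx ψz x) =
      ∫ x in (-(1 / 2) : ℝ)..(1 / 2), zeta1 x * force ε u ψx ψz x := by
    field_simp
  rw [h7] at h6
  linarith

lemma force_continuousOn {ε : ℝ} {u : ℝ → ℝ} {ψ ψx ψz : ℝ × ℝ → ℝ} (h : IsPotential ε u ψ ψx ψz)
    (huc : ContinuousOn u (Icc (-1) 1)) (hgap : ∀ x ∈ Icc (-1 : ℝ) 1, -1 < u x) :
    ContinuousOn (force ε u ψx ψz) (Icc (-1) 1) := by
  have c : ContinuousOn (fun x => (x, u x)) (Icc (-1 : ℝ) 1) := continuousOn_id.prodMk huc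
  have m : MapsTo (fun x => (x, u x)) (Icc (-1 : ℝ) 1) (OmegaBar u) := fun x hx =>
    ⟨hx.1, hx.2, (hgap x hx).le, le_rfl⟩
  exact (continuousOn_const.mul ((h.cont_x.comp c m).pow 2)).add ((h.cont_z.comp c m).pow 2)

lemma force_nonneg {ε : ℝ} {u : ℝ → ℝ} {ψx ψz : ℝ × ℝ → ℝ} (x : ℝ) : 0 ≤ force ε u ψx ψz x := by
  unfold force; positivity

/-- The global weight. -/
noncomputable def wgt (j : ℕ) (x : ℝ) : ℝ := x ^ (2 * j + 4) - 1 + (j + 2) * (1 - x ^ 2)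

noncomputable def wgt1 (j : ℕ) (x : ℝ) : ℝ := (2 * j + 4) * x ^ (2 * j + 3) - 2 * (j + 2) * x

noncomputable def wgt2 (j : ℕ) (x : ℝ) : ℝ :=
  (2 * j + 4) * (2 * j + 3) * x ^ (2 * j + 2) - 2 * (j + 2)

noncomputable def wgt3 (j : ℕ) (x : ℝ) : ℝ :=
  (2 * j + 4) * (2 * j + 3) * (2 * j + 2) * x ^ (2 * j + 1)

noncomputable def wgt4 (j : ℕ) (x : ℝ) : ℝ :=
  (2 * j + 4) * (2 * j + 3) * (2 * j + 2) * (2 * j + 1) * x ^ (2 * j)

lemma wgt_deriv (j : ℕ) : deriv (wgt j) = wgt1 j := by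
  funext x
  have h1 := (((hasDerivAt_pow (2 * j + 4) x).sub_const 1).add
    (((hasDerivAt_pow 2 x).const_sub 1).const_mul ((j : ℝ) + 2)))
  have h2 : HasDerivAt (wgt j) (wgt1 j x) x := by
    refine h1.congr_deriv ?_
    unfold wgt1
    push_cast
    simp only [pow_one]
    ring
  exact h2.deriv

lemma wgt1_deriv (j : ℕ) : deriv (wgt1 j) = wgt2 j := by
  funext x
  have h1 := ((hasDerivAt_pow (2 * j + 3) x).const_mul ((2 : ℝ) * j + 4)).sub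
    ((hasDerivAt_id x).const_mul ((2 : ℝ) * (j + 2)))
  have h2 : HasDerivAt (wgt1 j) (wgt2 j x) x := by
    refine h1.congr_deriv ?_
    unfold wgt2
    push_cast
    ring
  exact h2.deriv

lemma wgt2_deriv (j : ℕ) : deriv (wgt2 j) = wgt3 j := by
  funext x
  have h1 := ((hasDerivAt_pow (2 * j + 2) x).const_mul (((2 : ℝ) * j + 4) * (2 * j + 3))).sub_const
    (2 * ((j : ℝ) + 2))
  have h2 : HasDerivAt (wgt2 j) (wgt3 j x) x := by
    refine h1.congr_deriv ?_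
    unfold wgt3
    push_cast
    ring
  exact h2.deriv

lemma wgt3_deriv (j : ℕ) : deriv (wgt3 j) = wgt4 j := by
  funext x
  have h1 := ((hasDerivAt_pow (2 * j + 1) x).const_mul
    (((2 : ℝ) * j + 4) * (2 * j + 3) * (2 * j + 2)))
  have h2 : HasDerivAt (wgt3 j) (wgt4 j x) x := by
    refine h1.congr_deriv ?_
    unfold wgt4
    push_cast
    ring
  exact h2.deriv

lemma wgt_iter2 (j : ℕ) : iteratedDeriv 2 (wgt j) = wgt2 j := by
  rw [iteratedDeriv_eq_iterate]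
  simp only [Function.iterate_succ, Function.comp, Function.iterate_zero, id, wgt_deriv, wgt1_deriv]

lemma wgt_iter4 (j : ℕ) : iteratedDeriv 4 (wgt j) = wgt4 j := by
  rw [iteratedDeriv_eq_iterate]
  simp only [Function.iterate_succ, Function.comp, Function.iterate_zero, id, wgt_deriv, wgt1_deriv,
    wgt2_deriv, wgt3_deriv]

lemma wgt_contDiff (j : ℕ) : ContDiff ℝ 4 (wgt j) := by
  unfold wgt; fun_prop

lemma wgt_cont (j : ℕ) : Continuous (wgt j) := by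
  unfold wgt; fun_prop

lemma wgt_one (j : ℕ) : wgt j 1 = 0 := by simp [wgt]

lemma wgt_neg_one (j : ℕ) : wgt j (-1) = 0 := by
  unfold wgt
  rw [Even.neg_one_pow (by use (j + 2); ring)]
  norm_num

lemma wgt1_one (j : ℕ) : wgt1 j 1 = 0 := by
  unfold wgt1; rw [one_pow]; ring

lemma wgt1_neg_one (j : ℕ) : wgt1 j (-1) = 0 := by
  unfold wgt1
  rw [Odd.neg_one_pow (by use (j + 1); ring)]
  ring

lemma pow_ineq (j : ℕ) {y : ℝ} (h0 : 0 ≤ y) (h1 : y ≤ 1) :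
    (1 - y) ^ 2 ≤ y ^ (j + 2) - 1 + (j + 2) * (1 - y) := by
  induction j with
  | zero => norm_num; nlinarith
  | succ j ih =>
    have h2 : y ^ (j + 2) ≤ 1 := pow_le_one₀ h0 h1
    have h3 : 0 ≤ (1 - y) * (1 - y ^ (j + 2)) := mul_nonneg (by linarith) (by linarith)
    have h4 : y ^ (j + 1 + 2) = y ^ (j + 2) * y := by ring
    rw [h4]
    push_cast
    nlinarith

lemma wgt_ge (j : ℕ) {x : ℝ} (hx : x ∈ Icc (-1 : ℝ) 1) : (1 - x ^ 2) ^ 2 ≤ wgt j x := by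
  have h := pow_ineq j (y := x ^ 2) (by positivity) (by nlinarith [hx.1, hx.2])
  unfold wgt
  have : x ^ (2 * j + 4) = (x ^ 2) ^ (j + 2) := by rw [← pow_mul]; congr 1
  rw [this]; exact h

lemma wgt_nonneg (j : ℕ) {x : ℝ} (hx : x ∈ Icc (-1 : ℝ) 1) : 0 ≤ wgt j x :=
  le_trans (by positivity) (wgt_ge j hx)

lemma zeta1_le_wgt (j : ℕ) {x : ℝ} (hx : x ∈ Icc (-(1 / 2) : ℝ) (1 / 2)) : zeta1 x ≤ wgt j x := by
  have h1 : x ^ 2 ≤ 1 / 4 := by nlinarith [hx.1, hx.2]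
  refine le_trans ?_ (wgt_ge j ⟨by linarith [hx.1], by linarith [hx.2]⟩)
  unfold zeta1
  have h2 : (1 - 4 * x ^ 2) ^ 2 ≤ 1 := by
    have : 0 ≤ x ^ 2 := by positivity
    nlinarith
  nlinarith [sq_nonneg x]

lemma W_nonneg {β τ : ℝ} (hτ : 0 ≤ τ) {j : ℕ} (hj : τ ≤ β * ((2 * j + 2) * (2 * j + 1)))
    {x : ℝ} (hx : x ∈ Icc (-1 : ℝ) 1) : 0 ≤ β * wgt4 j x - τ * wgt2 j x := by
  have h1 : x ^ 2 ≤ 1 := by nlinarith [hx.1, hx.2]
  have h2 : 0 ≤ x ^ (2 * j) := by rw [pow_mul]; positivity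
  have h3 : 0 ≤ β * ((2 * j + 2) * (2 * j + 1)) - τ * x ^ 2 := by nlinarith
  have h4 : β * wgt4 j x - τ * wgt2 j x =
      (2 * j + 4) * (2 * j + 3) * x ^ (2 * j) * (β * ((2 * j + 2) * (2 * j + 1)) - τ * x ^ 2) +
        2 * τ * (j + 2) := by
    unfold wgt4 wgt2
    have : x ^ (2 * j + 2) = x ^ (2 * j) * x ^ 2 := by ring
    rw [this]; ring
  rw [h4]
  positivity

end Pool.Agent.J4.H82.Mems
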