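import Pool.Agent.J4.H82.Mems.Defs

set_option autoImplicit false

open Set MeasureTheory Filter Topology

namespace Pool.Agent.J4.H82.Mems

/-- Second derivative test, necessary condition. -/
lemma second_deriv_nonneg {f f' : ℝ → ℝ} {x₀ c : ℝ}
    (h1 : ∀ᶠ x in 𝓝 x₀, HasDerivAt f (f' x) x) (h2 : HasDerivAt f' c x₀)
    (hmin : IsLocalMin f x₀) : 0 ≤ c := by
  by_contra hc
  push Not at hc
  have hd0 : f' x₀ = 0 := by
    have := hmin.hasDerivAt_eq_zero h1.self_of_nhds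
    exact this
  -- f' is negative right of x₀
  have hslope : ∀ᶠ x in 𝓝[>] x₀, f' x < 0 := by
    have h3 := (hasDerivAt_iff_tendsto_slope.1 h2)
    have h4 : ∀ᶠ x in 𝓝[≠] x₀, slope f' x₀ x < 0 := h3.eventually (gt_mem_nhds hc)
    have h5 : ∀ᶠ x in 𝓝[>] x₀, slope f' x₀ x < 0 :=
      h4.filter_mono (nhdsWithin_mono _ (fun x hx => ne_of_gt hx))
    filter_upwards [h5, self_mem_nhdsWithin] with x hx hx0
    rw [slope_def_field, hd0, sub_zero] at hx
    have hpos : 0 < x - x₀ := sub_pos.2 hx0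
    by_contra hcon
    push Not at hcon
    exact absurd hx (not_lt.2 (div_nonneg hcon hpos.le))
  obtain ⟨b, hb, hb2⟩ := (mem_nhdsGT_iff_exists_Ioc_subset).1
    (hslope.and ((h1.and hmin).filter_mono nhdsWithin_le_nhds))
  have hb' : x₀ < b := hb
  -- f strictly decreasing on [x₀, b]
  have hanti : StrictAntiOn f (Icc x₀ b) := by
    apply strictAntiOn_of_deriv_neg (convex_Icc _ _)
    · intro x hx
      rcases eq_or_lt_of_le hx.1 with rfl | hlt
      · exact (h1.self_of_nhds).continuousAt.continuousWithinAt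
      · exact ((hb2 ⟨hlt, hx.2⟩).2.1).continuousAt.continuousWithinAt
    · intro x hx
      rw [interior_Icc] at hx
      have := hb2 ⟨hx.1, hx.2.le⟩
      rw [this.2.1.deriv]
      exact this.1
  have h6 := hanti (left_mem_Icc.2 hb'.le) (right_mem_Icc.2 hb'.le) hb'
  have h7 := (hb2 ⟨hb', le_rfl⟩).2.2
  linarith

/-- A minimum principle for `ε² w_xx + w_zz = 0`. -/
lemma min_principle {ε : ℝ} (hε : ε ≠ 0) {K U : Set (ℝ × ℝ)} (hK : IsCompact K) (hU : IsOpen U)
    (hUK : U ⊆ K) (hKb : ∀ p ∈ K, -1 ≤ p.1 ∧ p.1 ≤ 1)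
    {w w1 w2 : ℝ × ℝ → ℝ} {w11 w22 : ℝ × ℝ → ℝ} (hw : ContinuousOn w K)
    (h1 : ∀ p ∈ U, HasDerivAt (fun x => w (x, p.2)) (w1 p) p.1)
    (h2 : ∀ p ∈ U, HasDerivAt (fun z => w (p.1, z)) (w2 p) p.2)
    (h11 : ∀ p ∈ U, HasDerivAt (fun x => w1 (x, p.2)) (w11 p) p.1)
    (h22 : ∀ p ∈ U, HasDerivAt (fun z => w2 (p.1, z)) (w22 p) p.2)
    (hL : ∀ p ∈ U, ε ^ 2 * w11 p + w22 p = 0)
    (hb : ∀ p ∈ K, p ∉ U → 0 ≤ w p) : ∀ p ∈ K, 0 ≤ w p := by
  intro p hp
  by_contra hneg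
  push Not at hneg
  -- perturbation parameter
  obtain ⟨η, hη, hη2⟩ : ∃ η : ℝ, 0 < η ∧ w p + η < 0 := ⟨-(w p) / 2, by linarith, by linarith⟩
  set W : ℝ × ℝ → ℝ := fun q => w q - η * q.1 ^ 2 with hW
  have hWc : ContinuousOn W K := hw.sub (by fun_prop)
  obtain ⟨q, hqK, hq⟩ := hK.exists_isMinOn ⟨p, hp⟩ hWc
  have hqp : W q ≤ W p := hq hp
  have hqU : q ∈ U := by
    by_contra hqU
    have h3 := hb q hqK hqU
    have h4 : W q ≥ -η := by
      have := hKb q hqK
      have : q.1 ^ 2 ≤ 1 := by nlinarith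
      simp only [hW]; nlinarith
    have h5 : W p < -η := by
      simp only [hW]; nlinarith [sq_nonneg p.1]
    linarith
  have hnb : U ∈ 𝓝 q := hU.mem_nhds hqU
  -- x-line
  have hx : Tendsto (fun x : ℝ => (x, q.2)) (𝓝 q.1) (𝓝 q) := by
    have : Continuous fun x : ℝ => (x, q.2) := by fun_prop
    exact this.tendsto' _ _ rfl
  have hz : Tendsto (fun z : ℝ => (q.1, z)) (𝓝 q.2) (𝓝 q) := by
    have : Continuous fun z : ℝ => (q.1, z) := by fun_prop
    exact this.tendsto' _ _ rfl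
  have ex : ∀ᶠ x in 𝓝 q.1, (x, q.2) ∈ U := hx hnb
  have ez : ∀ᶠ z in 𝓝 q.2, (q.1, z) ∈ U := hz hnb
  have hA : 0 ≤ w11 q - 2 * η := by
    apply second_deriv_nonneg (f := fun x => W (x, q.2)) (f' := fun x => w1 (x, q.2) - 2 * η * x)
      (x₀ := q.1)
    · filter_upwards [ex] with x hxU
      have h3 := h1 (x, q.2) hxU
      have h4 : HasDerivAt (fun x : ℝ => η * x ^ 2) (2 * η * x) x := by
        have := (hasDerivAt_pow 2 x).const_mul η
        refine this.congr_deriv ?_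
        norm_num
        ring
      exact h3.sub h4
    · have h3 := h11 q hqU
      have h4 : HasDerivAt (fun x : ℝ => 2 * η * x) (2 * η) q.1 := by
        simpa using (hasDerivAt_id q.1).const_mul (2 * η)
      exact h3.sub h4
    · filter_upwards [ex] with x hxU
      exact hq (hUK hxU)
  have hB : 0 ≤ w22 q := by
    apply second_deriv_nonneg (f := fun z => W (q.1, z)) (f' := fun z => w2 (q.1, z))
      (x₀ := q.2)
    · filter_upwards [ez] with z hzU
      have h3 := h2 (q.1, z) hzU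
      simpa [hW] using h3.sub_const (η * q.1 ^ 2)
    · exact h22 q hqU
    · filter_upwards [ez] with z hzU
      exact hq (hUK hzU)
  have hC := hL q hqU
  have hε2 : 0 < ε ^ 2 := by positivity
  nlinarith

end Pool.Agent.J4.H82.Mems
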