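import Pool.Agent.J4.H82.Mems.MaxP

set_option autoImplicit false

open Set MeasureTheory Filter Topology

namespace Pool.Agent.J4.H82.Mems

lemma line1 {f : ℝ × ℝ → ℝ} {p : ℝ × ℝ} {f' : ℝ × ℝ →L[ℝ] ℝ} (h : HasFDerivAt f f' p) :
    HasDerivAt (fun x => f (x, p.2)) (f' (1, 0)) p.1 := by
  have h1 : HasDerivAt (fun x : ℝ => (x, p.2)) ((1 : ℝ), (0 : ℝ)) p.1 :=
    (hasDerivAt_id p.1).prodMk (hasDerivAt_const p.1 p.2)
  exact HasFDerivAt.comp_hasDerivAt p.1 (f := fun x : ℝ => (x, p.2)) h h1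

lemma line2 {f : ℝ × ℝ → ℝ} {p : ℝ × ℝ} {f' : ℝ × ℝ →L[ℝ] ℝ} (h : HasFDerivAt f f' p) :
    HasDerivAt (fun z => f (p.1, z)) (f' (0, 1)) p.2 := by
  have h1 : HasDerivAt (fun z : ℝ => (p.1, z)) ((0 : ℝ), (1 : ℝ)) p.2 :=
    (hasDerivAt_const p.2 p.1).prodMk (hasDerivAt_id p.2)
  exact HasFDerivAt.comp_hasDerivAt p.2 (f := fun z : ℝ => (p.1, z)) h h1

lemma isCompact_sub {U : ℝ → ℝ} (hU : ContinuousOn U (Icc (-1) 1)) :
    IsCompact {p : ℝ × ℝ | -1 ≤ p.1 ∧ p.1 ≤ 1 ∧ -1 ≤ p.2 ∧ p.2 ≤ U p.1} := by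
  obtain ⟨M, hM⟩ := (isCompact_Icc.image_of_continuousOn hU).bddAbove
  have hcl : IsClosed ((Icc (-1 : ℝ) 1 ×ˢ (univ : Set ℝ)) ∩
      (fun p : ℝ × ℝ => U p.1 - p.2) ⁻¹' Ici 0) := by
    apply ContinuousOn.preimage_isClosed_of_isClosed
    · apply ContinuousOn.sub _ continuousOn_snd
      exact hU.comp continuousOn_fst (fun p hp => hp.1)
    · exact isClosed_Icc.prod isClosed_univ
    · exact isClosed_Ici
  have hcl2 : IsClosed {p : ℝ × ℝ | -1 ≤ p.2} := isClosed_le continuous_const continuous_snd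
  have hs : {p : ℝ × ℝ | -1 ≤ p.1 ∧ p.1 ≤ 1 ∧ -1 ≤ p.2 ∧ p.2 ≤ U p.1} =
      ((Icc (-1 : ℝ) 1 ×ˢ (univ : Set ℝ)) ∩ (fun p : ℝ × ℝ => U p.1 - p.2) ⁻¹' Ici 0) ∩
        {p : ℝ × ℝ | -1 ≤ p.2} := by
    ext p
    simp only [mem_inter_iff, mem_prod, mem_univ, and_true, mem_preimage, mem_Ici, sub_nonneg,
      mem_Icc, mem_ofPred_eq]
    tauto
  refine IsCompact.of_isClosed_subset
    ((isCompact_Icc (a := (-1 : ℝ)) (b := 1)).prod (isCompact_Icc (a := (-1 : ℝ)) (b := M))) ?_ ?_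
  · rw [hs]; exact hcl.inter hcl2
  · intro p hp
    exact ⟨⟨hp.1, hp.2.1⟩, hp.2.2.1, hp.2.2.2.trans (hM ⟨p.1, ⟨hp.1, hp.2.1⟩, rfl⟩)⟩

lemma isOpen_sub {U : ℝ → ℝ} (hU : ContinuousOn U (Icc (-1) 1)) :
    IsOpen {p : ℝ × ℝ | -1 < p.1 ∧ p.1 < 1 ∧ -1 < p.2 ∧ p.2 < U p.1} := by
  rw [isOpen_iff_mem_nhds]
  rintro p ⟨h1, h2, h3, h4⟩
  have hc : ContinuousAt U p.1 := hU.continuousAt (Icc_mem_nhds h1 h2)
  have hc' : ContinuousAt (fun q : ℝ × ℝ => U q.1) p :=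
    ContinuousAt.comp (f := fun q : ℝ × ℝ => q.1) hc continuousAt_fst
  have e1 : ∀ᶠ q : ℝ × ℝ in 𝓝 p, -1 < q.1 := continuousAt_fst.eventually (lt_mem_nhds h1)
  have e2 : ∀ᶠ q : ℝ × ℝ in 𝓝 p, q.1 < 1 := continuousAt_fst.eventually (gt_mem_nhds h2)
  have e3 : ∀ᶠ q : ℝ × ℝ in 𝓝 p, -1 < q.2 := continuousAt_snd.eventually (lt_mem_nhds h3)
  have e4 : ∀ᶠ q : ℝ × ℝ in 𝓝 p, q.2 < U q.1 := continuousAt_snd.eventually_lt hc' h4
  filter_upwards [e1, e2, e3, e4] with q a b c d using ⟨a, b, c, d⟩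

variable {ε : ℝ} {u : ℝ → ℝ} {ψ ψx ψz : ℝ × ℝ → ℝ}

lemma Omega_subset : Omega u ⊆ OmegaBar u :=
  fun _ hp => ⟨hp.1.le, hp.2.1.le, hp.2.2.1.le, hp.2.2.2.le⟩

lemma isOpen_Omega (hu : ContinuousOn u (Icc (-1) 1)) : IsOpen (Omega u) := isOpen_sub hu

lemma isCompact_OmegaBar (hu : ContinuousOn u (Icc (-1) 1)) : IsCompact (OmegaBar u) :=
  isCompact_sub hu

namespace IsPotential

lemma cont (h : IsPotential ε u ψ ψx ψz) : ContinuousOn ψ (OmegaBar u) :=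
  fun p hp => (h.deriv p hp).continuousWithinAt

lemma hasFDerivAt (h : IsPotential ε u ψ ψx ψz) (hu : ContinuousOn u (Icc (-1) 1))
    {p : ℝ × ℝ} (hp : p ∈ Omega u) : HasFDerivAt ψ
    (ψx p • ContinuousLinearMap.fst ℝ ℝ ℝ + ψz p • ContinuousLinearMap.snd ℝ ℝ ℝ) p :=
  (h.deriv p (Omega_subset hp)).hasFDerivAt
    (mem_of_superset ((isOpen_Omega hu).mem_nhds hp) Omega_subset)

lemma fderiv_eq (h : IsPotential ε u ψ ψx ψz) (hu : ContinuousOn u (Icc (-1) 1))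
    {p : ℝ × ℝ} (hp : p ∈ Omega u) : fderiv ℝ ψ p =
    ψx p • ContinuousLinearMap.fst ℝ ℝ ℝ + ψz p • ContinuousLinearMap.snd ℝ ℝ ℝ :=
  (h.hasFDerivAt hu hp).fderiv

lemma contDiffAt_fderiv (h : IsPotential ε u ψ ψx ψz) (hu : ContinuousOn u (Icc (-1) 1))
    {p : ℝ × ℝ} (hp : p ∈ Omega u) : ContDiffAt ℝ 1 (fderiv ℝ ψ) p := by
  have h1 : ContDiffAt ℝ 2 ψ p := (h.smooth p hp).contDiffAt ((isOpen_Omega hu).mem_nhds hp)
  exact h1.fderiv_right (m := 1) (by norm_num)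

lemma ev_x (h : IsPotential ε u ψ ψx ψz) (hu : ContinuousOn u (Icc (-1) 1))
    {p : ℝ × ℝ} (hp : p ∈ Omega u) : ψx =ᶠ[𝓝 p] fun q => fderiv ℝ ψ q (1, 0) := by
  filter_upwards [(isOpen_Omega hu).mem_nhds hp] with q hq
  rw [h.fderiv_eq hu hq]; simp

lemma ev_z (h : IsPotential ε u ψ ψx ψz) (hu : ContinuousOn u (Icc (-1) 1))
    {p : ℝ × ℝ} (hp : p ∈ Omega u) : ψz =ᶠ[𝓝 p] fun q => fderiv ℝ ψ q (0, 1) := by
  filter_upwards [(isOpen_Omega hu).mem_nhds hp] with q hq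
  rw [h.fderiv_eq hu hq]; simp

lemma hasFDerivAt_x (h : IsPotential ε u ψ ψx ψz) (hu : ContinuousOn u (Icc (-1) 1))
    {p : ℝ × ℝ} (hp : p ∈ Omega u) : HasFDerivAt ψx (fderiv ℝ ψx p) p := by
  have h1 : DifferentiableAt ℝ (fun q => fderiv ℝ ψ q (1, 0)) p :=
    ((h.contDiffAt_fderiv hu hp).differentiableAt (by norm_num)).clm_apply
      (differentiableAt_const _)
  exact ((h.ev_x hu hp).differentiableAt_iff.2 h1).hasFDerivAt

lemma hasFDerivAt_z (h : IsPotential ε u ψ ψx ψz) (hu : ContinuousOn u (Icc (-1) 1))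
    {p : ℝ × ℝ} (hp : p ∈ Omega u) : HasFDerivAt ψz (fderiv ℝ ψz p) p := by
  have h1 : DifferentiableAt ℝ (fun q => fderiv ℝ ψ q (0, 1)) p :=
    ((h.contDiffAt_fderiv hu hp).differentiableAt (by norm_num)).clm_apply
      (differentiableAt_const _)
  exact ((h.ev_z hu hp).differentiableAt_iff.2 h1).hasFDerivAt

lemma symm (h : IsPotential ε u ψ ψx ψz) (hu : ContinuousOn u (Icc (-1) 1))
    {p : ℝ × ℝ} (hp : p ∈ Omega u) : fderiv ℝ ψx p (0, 1) = fderiv ℝ ψz p (1, 0) := by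
  have h1 : ContDiffAt ℝ 2 ψ p := (h.smooth p hp).contDiffAt ((isOpen_Omega hu).mem_nhds hp)
  have h2 : IsSymmSndFDerivAt ℝ ψ p := h1.isSymmSndFDerivAt (by simp)
  have hd := (h.contDiffAt_fderiv hu hp).differentiableAt (by norm_num)
  rw [(h.ev_x hu hp).fderiv_eq, (h.ev_z hu hp).fderiv_eq]
  have e1 : fderiv ℝ (fun q => fderiv ℝ ψ q (1, 0)) p (0, 1) =
      fderiv ℝ (fderiv ℝ ψ) p (0, 1) (1, 0) := by
    rw [fderiv_clm_apply hd (differentiableAt_const _)]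
    simp
  have e2 : fderiv ℝ (fun q => fderiv ℝ ψ q (0, 1)) p (1, 0) =
      fderiv ℝ (fderiv ℝ ψ) p (1, 0) (0, 1) := by
    rw [fderiv_clm_apply hd (differentiableAt_const _)]
    simp
  rw [e1, e2]
  exact h2 _ _

/-- Boundary values. -/
lemma top (h : IsPotential ε u ψ ψx ψz) (hgap : ∀ x ∈ Icc (-1 : ℝ) 1, -1 < u x)
    {x : ℝ} (hx : x ∈ Icc (-1 : ℝ) 1) : ψ (x, u x) = 1 := by
  have h1 := hgap x hx
  rw [h.bc (x, u x) ⟨hx.1, hx.2, h1.le, le_rfl⟩ (fun hh => lt_irrefl _ hh.2.2.2)]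
  exact div_self (by simp only; linarith)

lemma bot (h : IsPotential ε u ψ ψx ψz) (hgap : ∀ x ∈ Icc (-1 : ℝ) 1, -1 < u x)
    {x : ℝ} (hx : x ∈ Icc (-1 : ℝ) 1) : ψ (x, -1) = 0 := by
  have h1 := hgap x hx
  rw [h.bc (x, -1) ⟨hx.1, hx.2, le_rfl, h1.le⟩ (fun hh => lt_irrefl _ hh.2.2.1)]
  simp

/-- `0 ≤ ψ` -/
lemma nonneg (h : IsPotential ε u ψ ψx ψz) (hε : ε ≠ 0) (hu : ContinuousOn u (Icc (-1) 1))
    (hgap : ∀ x ∈ Icc (-1 : ℝ) 1, -1 < u x) : ∀ p ∈ OmegaBar u, 0 ≤ ψ p := by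
  apply min_principle hε (isCompact_OmegaBar hu) (isOpen_Omega hu) Omega_subset
    (fun p hp => ⟨hp.1, hp.2.1⟩) h.cont (w1 := ψx) (w2 := ψz)
    (w11 := fun p => fderiv ℝ ψx p (1, 0)) (w22 := fun p => fderiv ℝ ψz p (0, 1))
  · intro p hp; simpa using line1 (h.hasFDerivAt hu hp)
  · intro p hp; simpa using line2 (h.hasFDerivAt hu hp)
  · intro p hp; exact line1 (h.hasFDerivAt_x hu hp)
  · intro p hp; exact line2 (h.hasFDerivAt_z hu hp)
  · exact h.laplace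
  · intro p hp hpn
    rw [h.bc p hp hpn]
    have := hgap p.1 ⟨hp.1, hp.2.1⟩
    exact div_nonneg (by linarith [hp.2.2.1]) (by linarith)

/-- `ψ ≤ 1` -/
lemma le_one (h : IsPotential ε u ψ ψx ψz) (hε : ε ≠ 0) (hu : ContinuousOn u (Icc (-1) 1))
    (hgap : ∀ x ∈ Icc (-1 : ℝ) 1, -1 < u x) : ∀ p ∈ OmegaBar u, ψ p ≤ 1 := by
  have key : ∀ p ∈ OmegaBar u, 0 ≤ (fun q => 1 - ψ q) p := by
    apply min_principle hε (isCompact_OmegaBar hu) (isOpen_Omega hu) Omega_subset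
      (fun p hp => ⟨hp.1, hp.2.1⟩) (continuousOn_const.sub h.cont)
      (w1 := fun p => -ψx p) (w2 := fun p => -ψz p)
      (w11 := fun p => -fderiv ℝ ψx p (1, 0)) (w22 := fun p => -fderiv ℝ ψz p (0, 1))
    · intro p hp; simpa using (line1 (h.hasFDerivAt hu hp)).const_sub 1
    · intro p hp; simpa using (line2 (h.hasFDerivAt hu hp)).const_sub 1
    · intro p hp; exact (line1 (h.hasFDerivAt_x hu hp)).neg
    · intro p hp; exact (line2 (h.hasFDerivAt_z hu hp)).neg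
    · intro p hp; have := h.laplace p hp; linarith
    · intro p hp hpn
      show 0 ≤ 1 - ψ p
      rw [h.bc p hp hpn, sub_nonneg]
      have := hgap p.1 ⟨hp.1, hp.2.1⟩
      rw [div_le_one (by linarith)]
      linarith [hp.2.2.2]
  intro p hp
  have := key p hp
  simp only at this
  linarith

/-- `ψ` is nondecreasing in `z`. -/
lemma mono (h : IsPotential ε u ψ ψx ψz) (hε : ε ≠ 0) (hu : ContinuousOn u (Icc (-1) 1))
    (hgap : ∀ x ∈ Icc (-1 : ℝ) 1, -1 < u x) (hm1 : u (-1) = 0) (h1 : u 1 = 0) {x z z' : ℝ}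
    (hx : x ∈ Icc (-1 : ℝ) 1) (hz : -1 ≤ z) (hzz : z < z') (hz' : z' ≤ u x) :
    ψ (x, z) ≤ ψ (x, z') := by
  obtain ⟨δ, rfl⟩ : ∃ δ, z' = z + δ := ⟨z' - z, by ring⟩
  have hδ : 0 < δ := by linarith
  set K : Set (ℝ × ℝ) := {p | -1 ≤ p.1 ∧ p.1 ≤ 1 ∧ -1 ≤ p.2 ∧ p.2 ≤ u p.1 - δ} with hK
  set U : Set (ℝ × ℝ) := {p | -1 < p.1 ∧ p.1 < 1 ∧ -1 < p.2 ∧ p.2 < u p.1 - δ} with hU
  have hu' : ContinuousOn (fun x => u x - δ) (Icc (-1) 1) := hu.sub continuousOn_const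
  have hKc : IsCompact K := isCompact_sub hu'
  have hUo : IsOpen U := isOpen_sub hu'
  have hUK : U ⊆ K := fun _ hp => ⟨hp.1.le, hp.2.1.le, hp.2.2.1.le, hp.2.2.2.le⟩
  have hK1 : ∀ p ∈ K, p ∈ OmegaBar u := fun p hp => ⟨hp.1, hp.2.1, hp.2.2.1, by linarith [hp.2.2.2]⟩
  have hK2 : ∀ p ∈ K, (p.1, p.2 + δ) ∈ OmegaBar u := fun p hp =>
    ⟨hp.1, hp.2.1, by simp only; linarith [hp.2.2.1], by simp only; linarith [hp.2.2.2]⟩
  have hU1 : ∀ p ∈ U, p ∈ Omega u := fun p hp => ⟨hp.1, hp.2.1, hp.2.2.1, by linarith [hp.2.2.2]⟩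
  have hU2 : ∀ p ∈ U, (p.1, p.2 + δ) ∈ Omega u := fun p hp =>
    ⟨hp.1, hp.2.1, by simp only; linarith [hp.2.2.1], by simp only; linarith [hp.2.2.2]⟩
  have key : ∀ p ∈ K, 0 ≤ (fun q : ℝ × ℝ => ψ (q.1, q.2 + δ) - ψ q) p := by
    apply min_principle hε hKc hUo hUK (fun p hp => ⟨hp.1, hp.2.1⟩)
      (w1 := fun p => ψx (p.1, p.2 + δ) - ψx p) (w2 := fun p => ψz (p.1, p.2 + δ) - ψz p)
      (w11 := fun p => fderiv ℝ ψx (p.1, p.2 + δ) (1, 0) - fderiv ℝ ψx p (1, 0))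
      (w22 := fun p => fderiv ℝ ψz (p.1, p.2 + δ) (0, 1) - fderiv ℝ ψz p (0, 1))
    · apply ContinuousOn.sub
      · apply h.cont.comp (f := fun q : ℝ × ℝ => (q.1, q.2 + δ)) (by fun_prop)
        exact hK2
      · exact h.cont.mono hK1
    · intro p hp
      have a := line1 (h.hasFDerivAt hu (hU2 p hp))
      have b := line1 (h.hasFDerivAt hu (hU1 p hp))
      simpa using a.fun_sub b
    · intro p hp
      have a := line2 (h.hasFDerivAt hu (hU2 p hp))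
      have b := line2 (h.hasFDerivAt hu (hU1 p hp))
      have a' := HasDerivAt.comp_add_const p.2 δ a
      simpa using a'.fun_sub b
    · intro p hp
      have a := line1 (h.hasFDerivAt_x hu (hU2 p hp))
      have b := line1 (h.hasFDerivAt_x hu (hU1 p hp))
      exact a.sub b
    · intro p hp
      have a := line2 (h.hasFDerivAt_z hu (hU2 p hp))
      have b := line2 (h.hasFDerivAt_z hu (hU1 p hp))
      have a' := HasDerivAt.comp_add_const p.2 δ a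
      exact a'.sub b
    · intro p hp
      have a := h.laplace _ (hU1 p hp)
      have b := h.laplace _ (hU2 p hp)
      linarith
    · intro p hp hpn
      by_cases hp1 : p.1 = 1
      · have e1 : ψ p = (1 + p.2) / (1 + u p.1) :=
          h.bc p (hK1 p hp) (fun hh => by have := hh.2.1; linarith)
        have e2 : ψ (p.1, p.2 + δ) = (1 + (p.2 + δ)) / (1 + u p.1) :=
          h.bc _ (hK2 p hp) (fun hh => by have := hh.2.1; simp only at this; linarith)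
        rw [e1, e2, hp1, h1]; norm_num; linarith
      by_cases hp2 : p.1 = -1
      · have e1 : ψ p = (1 + p.2) / (1 + u p.1) :=
          h.bc p (hK1 p hp) (fun hh => by have := hh.1; linarith)
        have e2 : ψ (p.1, p.2 + δ) = (1 + (p.2 + δ)) / (1 + u p.1) :=
          h.bc _ (hK2 p hp) (fun hh => by have := hh.1; simp only at this; linarith)
        rw [e1, e2, hp2, hm1]; norm_num; linarith
      by_cases hp3 : p.2 = -1
      · have e1 : ψ p = 0 := by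
          have : p = (p.1, -1) := by rw [← hp3]
          rw [this]
          exact h.bot hgap ⟨hp.1, hp.2.1⟩
        rw [e1, sub_zero]
        exact h.nonneg hε hu hgap _ (hK2 p hp)
      · have hp4 : p.2 = u p.1 - δ := by
          by_contra hne
          exact hpn ⟨lt_of_le_of_ne hp.1 (Ne.symm hp2), lt_of_le_of_ne hp.2.1 hp1,
            lt_of_le_of_ne hp.2.2.1 (Ne.symm hp3), lt_of_le_of_ne hp.2.2.2 hne⟩
        have e2 : ψ (p.1, p.2 + δ) = 1 := by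
          rw [hp4]
          have := h.top hgap (x := p.1) ⟨hp.1, hp.2.1⟩
          simpa using this
        rw [e2]
        linarith [h.le_one hε hu hgap p (hK1 p hp)]
  have := key (x, z) ⟨hx.1, hx.2, hz, by simp only; linarith⟩
  simp only at this
  linarith

/-- `ψ_z ≥ 0` in the region. -/
lemma z_nonneg (h : IsPotential ε u ψ ψx ψz) (hε : ε ≠ 0) (hu : ContinuousOn u (Icc (-1) 1))
    (hgap : ∀ x ∈ Icc (-1 : ℝ) 1, -1 < u x) (hm1 : u (-1) = 0) (h1 : u 1 = 0) {p : ℝ × ℝ}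
    (hp : p ∈ Omega u) : 0 ≤ ψz p := by
  have hd := line2 (h.hasFDerivAt hu hp)
  have hd : HasDerivAt (fun z => ψ (p.1, z)) (ψz p) p.2 := by simpa using hd
  by_contra hneg
  push Not at hneg
  have hs := hasDerivAt_iff_tendsto_slope.1 hd
  have h4 : ∀ᶠ z in 𝓝[≠] p.2, slope (fun z => ψ (p.1, z)) p.2 z < 0 :=
    hs.eventually (gt_mem_nhds hneg)
  have h5 : ∀ᶠ z in 𝓝[>] p.2, slope (fun z => ψ (p.1, z)) p.2 z < 0 :=
    h4.filter_mono (nhdsWithin_mono _ (fun x hx => ne_of_gt hx))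
  have h6 : ∀ᶠ z in 𝓝[>] p.2, z < u p.1 :=
    (gt_mem_nhds hp.2.2.2 : ∀ᶠ z in 𝓝 p.2, z < u p.1).filter_mono nhdsWithin_le_nhds
  obtain ⟨z, hz1, hz2, hz3⟩ := (h5.and (h6.and self_mem_nhdsWithin)).exists
  have hz3' : p.2 < z := hz3
  have := h.mono hε hu hgap hm1 h1 (x := p.1) (z := p.2) (z' := z) ⟨hp.1.le, hp.2.1.le⟩
    hp.2.2.1.le hz3' hz2.le
  rw [slope_def_field, div_lt_iff₀ (by linarith)] at hz1
  linarith

end IsPotential

end Pool.Agent.J4.H82.Mems
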